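import Mathlib
import Pool.Agent.LibCramer.Core

/-!
Definitions: the Hardy-Littlewood main terms.
-/

namespace Pool.Agent.LibCI99

open Filter Topology
open scoped ENNReal

/-- the product of all primes `q ≤ t`. -/
noncomputable def prim (t : ℕ) : ℕ := ∏ q ∈ (Finset.range (t + 1)).filter Nat.Prime, q

/-- `∏_{q ≤ t} (1 - 1/q)`, `q` prime. -/
noncomputable def vee (t : ℕ) : ℝ :=
  ∏ q ∈ (Finset.range (t + 1)).filter Nat.Prime, (1 - 1 / (q : ℝ))

/-- The weight of the main terms (Granville's version of Cramer's density, with the primes up to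
`T n` taken into account): `0` if `n` has a prime factor `≤ T n`, and otherwise
`(1 / log n) ∏_{q ≤ T n} (1 - 1/q)⁻¹`.  For `T = 0` it is `1 / log n`. -/
noncomputable def dens (T : ℕ → ℕ) (n : ℕ) : ℝ :=
  if Nat.Coprime n (prim (T n)) then 1 / (vee (T n) * Real.log n) else 0

/-- number of `1 ≤ n ≤ x`, `n ≡ a (mod q)`, such that `n + h ∈ A` for all `h ∈ H`. -/
noncomputable def cnt (A : Set ℕ) (H : Finset ℕ) (q a x : ℕ) : ℝ :=
  open Classical in
  (((Finset.Icc 1 x).filter (fun n => n ≡ a [MOD q] ∧ ∀ h ∈ H, n + h ∈ A)).card : ℝ)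

/-- the main term `∑_{n ≤ x, n ≡ a (mod q)} ∏_{h ∈ H} dens (n + h)`. -/
noncomputable def mainTerm (T : ℕ → ℕ) (H : Finset ℕ) (q a x : ℕ) : ℝ :=
  ∑ n ∈ (Finset.Icc 1 x).filter (fun n => n ≡ a [MOD q]), ∏ h ∈ H, dens T (n + h)

/-- number of residue classes mod `p` occupied by `H`. -/
noncomputable def occ (H : Finset ℕ) (p : ℕ) : ℕ := (H.image (fun h => h % p)).card

/-- the Hardy-Littlewood singular series
`∏_p (1 - ν_p(H)/p) (1 - 1/p)^{-|H|}`. -/
noncomputable def singSeries (H : Finset ℕ) : ℝ :=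
  ∏' p : Nat.Primes, (1 - (occ H p : ℝ) / (p : ℝ)) / (1 - 1 / (p : ℝ)) ^ H.card

/-- all tuple counts of all orders, in all residue classes, have square root error. -/
def AllTuples (T : ℕ → ℕ) (A : Set ℕ) : Prop :=
  ∀ ε : ℝ, 0 < ε → ∃ C : ℝ, ∀ x : ℕ, ∀ q a : ℕ, ∀ H : Finset ℕ, (∀ h ∈ H, h ≤ x) →
    |cnt A H q a x - mainTerm T H q a x| ≤ C * (x : ℝ) ^ (1 / 2 + ε)

/-- `T` is nondecreasing and `T n ≤ log log n` for `n ≥ 3`. -/
structure Slow (T : ℕ → ℕ) : Prop where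
  mono : Monotone T
  le : ∀ n : ℕ, 3 ≤ n → (T n : ℝ) ≤ Real.log (Real.log n) ∨ T n = 0

end Pool.Agent.LibCI99
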