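import Pool.Agent.LibCI99.HLAsym
import Pool.Agent.LibCI.Inf
import Pool.Agent.LibBar93.Construct

/-! From the law of the tuples to the Hardy-Littlewood asymptotics. -/

namespace Pool.Agent.LibCI99

open Filter Topology

theorem slow93 : Slow LibBar93.sieveLim :=
  ⟨Pool.CI63.slow_sieveLim.mono, Pool.CI63.slow_sieveLim.le⟩

theorem sieveLim_atTop : Tendsto LibBar93.sieveLim atTop atTop := by
  refine tendsto_atTop_mono' _ (f₁ := fun n => Nat.log 2 (Nat.log 2 n) / 4) ?_ ?_
  · exact Eventually.of_forall (fun n => le_rfl)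
  · have h1 : Tendsto (fun n : ℕ => Nat.log 2 n) atTop atTop := by
      refine tendsto_atTop.2 (fun b => ?_)
      filter_upwards [eventually_ge_atTop (2 ^ b)] with n hn
      exact Nat.le_log_of_pow_le (by norm_num) hn
    have h2 : Tendsto (fun n : ℕ => n / 4) atTop atTop := by
      refine tendsto_atTop.2 (fun b => ?_)
      filter_upwards [eventually_ge_atTop (4 * b)] with n hn
      omega
    exact h2.comp (h1.comp h1)

theorem dens93_eq (n : ℕ) (hn : 8 ≤ n) : LibBar93.dens n = dens LibBar93.sieveLim n := by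
  rw [Pool.CI63.dens_eq n hn]
  rfl

/-- the main terms differ by a constant -/
theorem mainT_eq (H : Finset ℕ) (q a : ℕ) : ∃ c : ℝ, ∀ x : ℕ, 8 ≤ x →
    LibBar93.mainT LibBar93.dens H q a x = mainTerm LibBar93.sieveLim H q a x + c := by
  have hsplit : ∀ (f : ℕ → ℝ) (x : ℕ), 8 ≤ x →
      ∑ n ∈ (Finset.Icc 1 x).filter (fun n => n ≡ a [MOD q]), f n =
        ∑ n ∈ (Finset.Icc 1 7).filter (fun n => n ≡ a [MOD q]), f n +
        ∑ n ∈ (Finset.Icc 8 x).filter (fun n => n ≡ a [MOD q]), f n := by
    intro f x hx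
    rw [← Finset.sum_union]
    · rw [← Finset.filter_union]
      congr 2
      ext n
      simp only [Finset.mem_Icc, Finset.mem_union]
      omega
    · rw [Finset.disjoint_left]
      intro n h1 h2
      simp only [Finset.mem_filter, Finset.mem_Icc] at h1 h2
      omega
  refine ⟨LibBar93.mainT LibBar93.dens H q a 7 - mainTerm LibBar93.sieveLim H q a 7, ?_⟩
  intro x hx
  have h1 : LibBar93.mainT LibBar93.dens H q a x =
      LibBar93.mainT LibBar93.dens H q a 7 +
        ∑ n ∈ (Finset.Icc 8 x).filter (fun n => n ≡ a [MOD q]),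
          ∏ h ∈ H, LibBar93.dens (n + h) := by
    unfold LibBar93.mainT
    exact hsplit _ x hx
  have h2 : mainTerm LibBar93.sieveLim H q a x =
      mainTerm LibBar93.sieveLim H q a 7 +
        ∑ n ∈ (Finset.Icc 8 x).filter (fun n => n ≡ a [MOD q]),
          ∏ h ∈ H, dens LibBar93.sieveLim (n + h) := by
    unfold mainTerm
    exact hsplit _ x hx
  have h3 : ∑ n ∈ (Finset.Icc 8 x).filter (fun n => n ≡ a [MOD q]),
          ∏ h ∈ H, LibBar93.dens (n + h) =
      ∑ n ∈ (Finset.Icc 8 x).filter (fun n => n ≡ a [MOD q]),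
          ∏ h ∈ H, dens LibBar93.sieveLim (n + h) := by
    refine Finset.sum_congr rfl (fun n hn => Finset.prod_congr rfl (fun h _ => ?_))
    rw [Finset.mem_filter, Finset.mem_Icc] at hn
    exact dens93_eq _ (by omega)
  rw [h1, h2, h3]
  ring

theorem log_pow_div (r : ℕ) :
    Tendsto (fun x : ℕ => Real.log (x : ℝ) ^ r / Real.sqrt x) atTop (𝓝 0) := by
  have h0 : Tendsto (fun x : ℝ => Real.log x ^ (2 * r) / x) atTop (𝓝 0) := by
    have := Real.isLittleO_pow_log_id_atTop (n := 2 * r)
    simpa using this.tendsto_div_nhds_zero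
  have h1 : Tendsto (fun x : ℝ => Real.sqrt (Real.log x ^ (2 * r) / x)) atTop (𝓝 0) := by
    have := (Real.continuous_sqrt.tendsto 0).comp h0
    simpa [Function.comp_def] using this
  have h2 := h1.comp (tendsto_natCast_atTop_atTop (R := ℝ))
  refine h2.congr (fun x => ?_)
  simp only [Function.comp_apply]
  rw [Real.sqrt_div' _ (Nat.cast_nonneg x), mul_comm 2 r, pow_mul, Real.sqrt_sq]
  have : 0 ≤ Real.log (x : ℝ) := Real.log_natCast_nonneg x
  positivity

/-- the asymptotics of the main term -/
theorem mainT_asymp (q a : ℕ) (hq : 0 < q) (H : Finset ℕ) :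
    Tendsto (fun x : ℕ => LibBar93.mainT LibBar93.dens H q a x * Real.log x ^ H.card / x) atTop
      (𝓝 (hlConst q a H)) := by
  obtain ⟨c, hc⟩ := mainT_eq H q a
  have h1 := mainTerm_asymp LibBar93.sieveLim slow93 sieveLim_atTop q a hq H
  have h2 : Tendsto (fun x : ℕ => c * (Real.log (x : ℝ) ^ H.card / x)) atTop (𝓝 (c * 0)) := by
    refine Tendsto.const_mul c ?_
    have h3 := Real.isLittleO_pow_log_id_atTop (n := H.card)
    have h4 := h3.tendsto_div_nhds_zero.comp (tendsto_natCast_atTop_atTop (R := ℝ))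
    simpa [Function.comp_def] using h4
  have h5 := h1.add h2
  rw [mul_zero, add_zero] at h5
  refine h5.congr' ?_
  filter_upwards [eventually_ge_atTop 8] with x hx
  rw [hc x hx]
  ring

/-- the Hardy-Littlewood asymptotics for the sets with the law of the tuples -/
theorem hl_of_law (A : Set ℕ) (hA : LibBar93.TupleLaw LibBar93.dens A) (q a : ℕ) (hq : 0 < q)
    (H : Finset ℕ) :
    Tendsto (fun x : ℕ => (LibBar93.tuples A H q a x : ℝ) * Real.log x ^ H.card / x) atTop
      (𝓝 (hlConst q a H)) := by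
  obtain ⟨C, hC⟩ := hA
  have h1 : Tendsto (fun x : ℕ => ((LibBar93.tuples A H q a x : ℝ) -
      LibBar93.mainT LibBar93.dens H q a x) * Real.log x ^ H.card / x) atTop (𝓝 0) := by
    have h2 : Tendsto (fun x : ℕ => C * (Real.log (x : ℝ) ^ (5 + H.card) / Real.sqrt x)) atTop
        (𝓝 (C * 0)) := (log_pow_div _).const_mul C
    rw [mul_zero] at h2
    refine squeeze_zero_norm' ?_ h2
    filter_upwards [eventually_ge_atTop 2, eventually_ge_atTop (H.sup id)] with x hx hxH
    have hx0 : (0 : ℝ) < x := by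
      have : 0 < x := by omega
      exact_mod_cast this
    have h3 := hC x hx H (fun h hh => (Finset.le_sup (f := id) hh).trans hxH) q a
    have hlog : 0 ≤ Real.log (x : ℝ) := Real.log_natCast_nonneg x
    rw [Real.norm_eq_abs, abs_div, abs_mul, abs_of_nonneg (pow_nonneg hlog _), abs_of_pos hx0]
    calc |(LibBar93.tuples A H q a x : ℝ) - LibBar93.mainT LibBar93.dens H q a x| *
          Real.log x ^ H.card / x
        ≤ C * √x * Real.log x ^ 5 * Real.log x ^ H.card / x := by gcongr
      _ = C * (Real.log (x : ℝ) ^ (5 + H.card) / Real.sqrt x) := by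
        have h4 : √(x : ℝ) * √(x : ℝ) = x := Real.mul_self_sqrt hx0.le
        have h5 : √(x : ℝ) ≠ 0 := (Real.sqrt_pos.2 hx0).ne'
        rw [pow_add]
        generalize Real.log (x : ℝ) = l
        field_simp
        rw [Real.sq_sqrt hx0.le]
        try ring
  have h6 := h1.add (mainT_asymp q a hq H)
  rw [zero_add] at h6
  refine h6.congr (fun x => ?_)
  ring

/-- for `q = 1` the constant is the singular series -/
theorem hlConst_one (a : ℕ) (H : Finset ℕ) : hlConst 1 a H = singSeries H := by
  unfold hlConst singSeries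
  rw [Nat.cast_one, div_one, one_mul]
  congr 1
  funext p
  unfold loc
  rw [if_neg (fun h => p.2.one_lt.ne' (Nat.dvd_one.1 h))]

end Pool.Agent.LibCI99
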