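import Pool.Agent.LibCI99.HLDefs

namespace Pool.Agent.LibCI99

open Filter Topology

/-- period lemma -/
lemma hl1_period (M : ℕ) (P : ℕ → Prop) [DecidablePred P] (hP : Function.Periodic P M) (s k : ℕ) :
    ((Finset.Ioc s (s + M * k)).filter P).card = k * ((Finset.range M).filter P).card := by
  induction k with
  | zero => simp
  | succ k ih =>
    have hu : Finset.Ioc s (s + M * (k + 1)) =
        Finset.Ioc s (s + M * k) ∪ Finset.Ioc (s + M * k) (s + M * k + M) := by
      rw [Finset.Ioc_union_Ioc_eq_Ioc (by omega) (by omega)]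
      congr 1
      ring
    have hd : Disjoint ((Finset.Ioc s (s + M * k)).filter P)
        ((Finset.Ioc (s + M * k) (s + M * k + M)).filter P) := by
      apply Finset.disjoint_filter_filter
      rw [Finset.disjoint_left]
      intro x hx hx'
      simp only [Finset.mem_Ioc] at hx hx'
      omega
    have h1 : ((Finset.Ioc (s + M * k) (s + M * k + M)).filter P).card =
        ((Finset.range M).filter P).card := by
      have h2 := Nat.filter_Ico_card_eq_of_periodic (s + M * k + 1) M P hP
      have h3 : Finset.Ico (s + M * k + 1) (s + M * k + 1 + M) =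
          Finset.Ioc (s + M * k) (s + M * k + M) := by
        ext x
        simp only [Finset.mem_Ico, Finset.mem_Ioc]
        omega
      rw [h3, Nat.count_eq_card_filter_range] at h2
      exact h2
    rw [hu, Finset.filter_union, Finset.card_union_of_disjoint hd, ih, h1]
    ring

/-- Chinese remainder count -/
lemma hl1_crt (M p : ℕ) (hM : 0 < M) (hp : 0 < p) (hc : Nat.Coprime M p) (A B : ℕ → Prop)
    [DecidablePred A] [DecidablePred B] (hA : ∀ n, A (n % M) ↔ A n) (hB : ∀ n, B (n % p) ↔ B n) :
    ((Finset.range (M * p)).filter (fun n => A n ∧ B n)).card =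
      ((Finset.range M).filter A).card * ((Finset.range p).filter B).card := by
  rw [← Finset.card_product]
  apply Finset.card_bij (fun n _ => (n % M, n % p))
  · intro n hn
    simp only [Finset.mem_filter, Finset.mem_range, Finset.mem_product] at hn ⊢
    exact ⟨⟨Nat.mod_lt _ hM, (hA n).2 hn.2.1⟩, ⟨Nat.mod_lt _ hp, (hB n).2 hn.2.2⟩⟩
  · intro m hm n hn hmn
    simp only [Finset.mem_filter, Finset.mem_range, Prod.mk.injEq] at hm hn hmn
    have h : m ≡ n [MOD M * p] := (Nat.modEq_and_modEq_iff_modEq_mul hc).1 ⟨hmn.1, hmn.2⟩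
    exact Nat.ModEq.eq_of_lt_of_lt h hm.1 hn.1
  · rintro ⟨x, y⟩ hxy
    simp only [Finset.mem_filter, Finset.mem_range, Finset.mem_product] at hxy
    obtain ⟨⟨hx, hAx⟩, ⟨hy, hBy⟩⟩ := hxy
    have h1 := (Nat.chineseRemainder hc x y).2
    have h2 := Nat.chineseRemainder_lt_mul hc x y hM.ne' hp.ne'
    refine ⟨(Nat.chineseRemainder hc x y : ℕ), ?_, ?_⟩
    · simp only [Finset.mem_filter, Finset.mem_range]
      refine ⟨h2, ?_, ?_⟩
      · rw [← hA, h1.1, Nat.mod_eq_of_lt hx]
        exact hAx
      · rw [← hB, h1.2, Nat.mod_eq_of_lt hy]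
        exact hBy
    · simp only [Prod.mk.injEq]
      constructor
      · rw [h1.1, Nat.mod_eq_of_lt hx]
      · rw [h1.2, Nat.mod_eq_of_lt hy]

/-- number of admissible classes modulo `p` -/
lemma hl1_occ (H : Finset ℕ) (p : ℕ) (hp : 0 < p) :
    ((Finset.range p).filter (fun n => ∀ h ∈ H, ¬ p ∣ n + h)).card + occ H p = p := by
  have h1 := Finset.card_filter_add_card_filter_not (s := Finset.range p)
    (fun n => ∀ h ∈ H, ¬ p ∣ n + h)
  rw [Finset.card_range] at h1
  have h2 : ((Finset.range p).filter (fun n => ¬ ∀ h ∈ H, ¬ p ∣ n + h)).card = occ H p := by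
    unfold occ
    symm
    apply Finset.card_bij (fun x _ => (p - x) % p)
    · intro x hx
      simp only [Finset.mem_image] at hx
      obtain ⟨h, hh, rfl⟩ := hx
      simp only [Finset.mem_filter, Finset.mem_range, not_forall, not_not]
      refine ⟨Nat.mod_lt _ hp, h, hh, ?_⟩
      have hlt := Nat.mod_lt h hp
      apply Nat.dvd_of_mod_eq_zero
      rw [Nat.add_mod, Nat.mod_mod, ← Nat.add_mod]
      have : (p - h % p + h) % p = (p - h % p + h % p) % p := by
        rw [Nat.add_mod, Nat.add_mod (p - h % p) (h % p), Nat.mod_mod]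
      rw [this, Nat.sub_add_cancel hlt.le, Nat.mod_self]
    · intro x hx y hy hxy
      simp only [Finset.mem_image] at hx hy
      obtain ⟨h, hh, rfl⟩ := hx
      obtain ⟨h', hh', rfl⟩ := hy
      have h3 := Nat.mod_lt h hp
      have h4 := Nat.mod_lt h' hp
      generalize h % p = u at *
      generalize h' % p = v at *
      have hu : (p - u) % p = if u = 0 then 0 else p - u := by
        split_ifs with h0
        · rw [h0]; simp
        · exact Nat.mod_eq_of_lt (by omega)
      have hv : (p - v) % p = if v = 0 then 0 else p - v := by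
        split_ifs with h0
        · rw [h0]; simp
        · exact Nat.mod_eq_of_lt (by omega)
      rw [hu, hv] at hxy
      split_ifs at hxy <;> omega
    · intro n hn
      simp only [Finset.mem_filter, Finset.mem_range, not_forall, not_not] at hn
      obtain ⟨hn, h, hh, hd⟩ := hn
      refine ⟨h % p, Finset.mem_image.2 ⟨h, hh, rfl⟩, ?_⟩
      have h3 := Nat.mod_lt h hp
      have h4 : (n + h % p) % p = 0 := by
        have : (n + h % p) % p = (n + h) % p := by
          rw [Nat.add_mod, Nat.mod_mod, ← Nat.add_mod]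
        rw [this]
        exact Nat.mod_eq_zero_of_dvd hd
      generalize h % p = u at *
      by_cases h0 : n + u < p
      · rw [Nat.mod_eq_of_lt h0] at h4
        have : u = 0 := by omega
        have hn0 : n = 0 := by omega
        rw [this, hn0]
        simp
      · have h5 : (n + u) % p = n + u - p := by
          rw [Nat.mod_eq_sub_mod (by omega), Nat.mod_eq_of_lt (by omega)]
        have h6 : p - u = n := by omega
        rw [h6, Nat.mod_eq_of_lt hn]
  omega

/-- the core count, over any finite set of primes -/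
lemma hl1_core (q a : ℕ) (hq : 0 < q) (H : Finset ℕ) (S : Finset ℕ) (hS : ∀ p ∈ S, p.Prime) :
    open Classical in
    ((((Finset.range (q * ∏ p ∈ S, p)).filter
      (fun n => n ≡ a [MOD q] ∧ ∀ p ∈ S, ∀ h ∈ H, ¬ p ∣ n + h)).card : ℕ) : ℝ) =
      (∏ p ∈ S, (p : ℝ)) * ∏ p ∈ S,
        (if p ∣ q then (if ∀ h ∈ H, ¬ p ∣ a + h then (1 : ℝ) else 0)
          else 1 - (occ H p : ℝ) / p) := by
  classical
  induction S using Finset.induction_on with
  | empty =>
    simp only [Finset.prod_empty, mul_one, Finset.notMem_empty, false_imp_iff, implies_true,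
      and_true, Nat.cast_eq_one]
    rw [Finset.card_eq_one]
    refine ⟨a % q, ?_⟩
    ext n
    simp only [Finset.mem_filter, Finset.mem_range, Finset.mem_singleton]
    constructor
    · rintro ⟨h1, h2⟩
      have : n % q = a % q := h2
      rwa [Nat.mod_eq_of_lt h1] at this
    · rintro rfl
      exact ⟨Nat.mod_lt _ hq, Nat.mod_mod _ _⟩
  | insert p S hpS ih =>
    have hp : p.Prime := hS p (Finset.mem_insert_self _ _)
    have hS' : ∀ r ∈ S, r.Prime := fun r hr => hS r (Finset.mem_insert_of_mem hr)
    have ih := ih hS'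
    have hM : 0 < q * ∏ r ∈ S, r := Nat.mul_pos hq (Finset.prod_pos fun r hr => (hS' r hr).pos)
    set M := q * ∏ r ∈ S, r with hMdef
    set A : ℕ → Prop := fun n => n ≡ a [MOD q] ∧ ∀ r ∈ S, ∀ h ∈ H, ¬ r ∣ n + h with hAdef
    have hAmod : ∀ n, A (n % M) ↔ A n := by
      intro n
      have hqM : q ∣ M := Dvd.intro _ rfl
      simp only [hAdef]
      have e1 : (n % M ≡ a [MOD q]) ↔ (n ≡ a [MOD q]) := by
        unfold Nat.ModEq
        rw [Nat.mod_mod_of_dvd n hqM]
      have e2 : ∀ r ∈ S, ∀ h ∈ H, (¬ r ∣ n % M + h ↔ ¬ r ∣ n + h) := by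
        intro r hr h _
        have hrM : r ∣ M := Dvd.dvd.mul_left (Finset.dvd_prod_of_mem _ hr) _
        rw [not_iff_not, Nat.dvd_iff_mod_eq_zero, Nat.dvd_iff_mod_eq_zero]
        rw [Nat.add_mod, Nat.mod_mod_of_dvd n hrM, ← Nat.add_mod]
      constructor
      · rintro ⟨h1, h2⟩
        exact ⟨e1.1 h1, fun r hr h hh => (e2 r hr h hh).1 (h2 r hr h hh)⟩
      · rintro ⟨h1, h2⟩
        exact ⟨e1.2 h1, fun r hr h hh => (e2 r hr h hh).2 (h2 r hr h hh)⟩
    have hset : q * ∏ r ∈ insert p S, r = M * p := by
      rw [Finset.prod_insert hpS, hMdef]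
      ring
    rw [hset, Finset.prod_insert hpS, Finset.prod_insert hpS]
    by_cases hpq : p ∣ q
    · -- p | q
      have hiff : ∀ n, (n ≡ a [MOD q] ∧ ∀ r ∈ insert p S, ∀ h ∈ H, ¬ r ∣ n + h) ↔
          (A n ∧ ∀ h ∈ H, ¬ p ∣ a + h) := by
        intro n
        have hkey : n ≡ a [MOD q] → ∀ h, (p ∣ n + h ↔ p ∣ a + h) := by
          intro hna h
          have h1 : n + h ≡ a + h [MOD p] := (hna.of_dvd hpq).add_right h
          exact h1.dvd_iff dvd_rfl
        simp only [hAdef]
        constructor
        · rintro ⟨h1, h2⟩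
          exact ⟨⟨h1, fun r hr => h2 r (Finset.mem_insert_of_mem hr)⟩,
            fun h hh => by
              have := h2 p (Finset.mem_insert_self _ _) h hh
              rwa [hkey h1 h] at this⟩
        · rintro ⟨⟨h1, h2⟩, h3⟩
          refine ⟨h1, fun r hr h hh => ?_⟩
          rcases Finset.mem_insert.1 hr with rfl | hr
          · rw [hkey h1 h]
            exact h3 h hh
          · exact h2 r hr h hh
      rw [Finset.filter_congr (fun n _ => hiff n)]
      rw [if_pos hpq]
      by_cases hgood : ∀ h ∈ H, ¬ p ∣ a + h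
      · rw [if_pos hgood]
        rw [Finset.filter_congr (q := A) (fun n _ => and_iff_left hgood)]
        have hper : Function.Periodic A M := by
          intro n
          apply propext
          rw [← hAmod (n + M), ← hAmod n, Nat.add_mod_right]
        have h2 : ((Finset.range (M * p)).filter A).card = p * ((Finset.range M).filter A).card := by
          clear ih
          generalize p = k
          induction k with
          | zero => simp
          | succ k ihk =>
            have hu : Finset.range (M * (k + 1)) =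
                Finset.range (M * k) ∪ Finset.Ico (M * k) (M * k + M) := by
              ext x
              simp only [Finset.mem_union, Finset.mem_range, Finset.mem_Ico]
              rw [mul_add, mul_one]
              omega
            have hd : Disjoint ((Finset.range (M * k)).filter A)
                ((Finset.Ico (M * k) (M * k + M)).filter A) := by
              apply Finset.disjoint_filter_filter
              rw [Finset.disjoint_left]
              intro x hx hx'
              simp only [Finset.mem_range, Finset.mem_Ico] at hx hx'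
              omega
            have h3 := Nat.filter_Ico_card_eq_of_periodic (M * k) M A hper
            rw [Nat.count_eq_card_filter_range] at h3
            rw [hu, Finset.filter_union, Finset.card_union_of_disjoint hd, ihk, h3]
            ring
        rw [h2]
        push_cast
        rw [ih]
        ring
      · rw [if_neg hgood]
        have : ((Finset.range (M * p)).filter (fun n => A n ∧ ∀ h ∈ H, ¬ p ∣ a + h)) = ∅ := by
          apply Finset.filter_false_of_mem
          intro n _ hn
          exact hgood hn.2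
        rw [this]
        simp
    · -- p ∤ q
      have hcop : Nat.Coprime M p := by
        rw [hMdef]
        apply Nat.Coprime.mul_left
        · exact ((Nat.Prime.coprime_iff_not_dvd hp).2 hpq).symm
        · apply Nat.Coprime.prod_left
          intro r hr
          rw [Nat.coprime_primes (hS' r hr) hp]
          rintro rfl
          exact hpS hr
      have hBmod : ∀ n, (∀ h ∈ H, ¬ p ∣ n % p + h) ↔ (∀ h ∈ H, ¬ p ∣ n + h) := by
        intro n
        have e2 : ∀ h ∈ H, (¬ p ∣ n % p + h ↔ ¬ p ∣ n + h) := by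
          intro h _
          rw [not_iff_not, Nat.dvd_iff_mod_eq_zero, Nat.dvd_iff_mod_eq_zero]
          rw [Nat.add_mod, Nat.mod_mod, ← Nat.add_mod]
        exact ⟨fun h1 h hh => (e2 h hh).1 (h1 h hh), fun h1 h hh => (e2 h hh).2 (h1 h hh)⟩
      have hiff : ∀ n, (n ≡ a [MOD q] ∧ ∀ r ∈ insert p S, ∀ h ∈ H, ¬ r ∣ n + h) ↔
          (A n ∧ ∀ h ∈ H, ¬ p ∣ n + h) := by
        intro n
        simp only [hAdef]
        constructor
        · rintro ⟨h1, h2⟩
          exact ⟨⟨h1, fun r hr => h2 r (Finset.mem_insert_of_mem hr)⟩,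
            h2 p (Finset.mem_insert_self _ _)⟩
        · rintro ⟨⟨h1, h2⟩, h3⟩
          refine ⟨h1, fun r hr h hh => ?_⟩
          rcases Finset.mem_insert.1 hr with rfl | hr
          · exact h3 h hh
          · exact h2 r hr h hh
      rw [Finset.filter_congr (fun n _ => hiff n)]
      rw [hl1_crt M p hM hp.pos hcop A (fun n => ∀ h ∈ H, ¬ p ∣ n + h) hAmod hBmod]
      rw [if_neg hpq]
      have h1 := hl1_occ H p hp.pos
      have h2 : ((((Finset.range p).filter (fun n => ∀ h ∈ H, ¬ p ∣ n + h)).card : ℕ) : ℝ) =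
          p * (1 - (occ H p : ℝ) / p) := by
        have hp0 : (p : ℝ) ≠ 0 := by exact_mod_cast hp.pos.ne'
        have h3 : ((((Finset.range p).filter (fun n => ∀ h ∈ H, ¬ p ∣ n + h)).card : ℕ) : ℝ) +
            (occ H p : ℝ) = p := by exact_mod_cast h1
        field_simp
        linarith
      rw [Nat.cast_mul, ih, h2]
      ring

/-- HL1 -/
theorem card_good (q a : ℕ) (hq : 0 < q) (H : Finset ℕ) (t s N : ℕ) (hN : q * prim t ∣ N) :
    open Classical in
    (((Finset.Ioc s (s + N)).filter (goodT q a H t)).card : ℝ) = N * dlt q a H t := by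
  classical
  obtain ⟨k, rfl⟩ := hN
  set S := (Finset.range (t + 1)).filter Nat.Prime with hS
  have hSp : ∀ p ∈ S, p.Prime := fun p hp => (Finset.mem_filter.1 hp).2
  have hprim : prim t = ∏ p ∈ S, p := rfl
  have hgood : ∀ n, goodT q a H t n ↔ (n ≡ a [MOD q] ∧ ∀ p ∈ S, ∀ h ∈ H, ¬ p ∣ n + h) := by
    intro n
    unfold goodT
    rw [hprim]
    constructor
    · rintro ⟨h1, h2⟩
      refine ⟨h1, fun p hp h hh => ?_⟩
      have h3 := (Nat.coprime_prod_right_iff.1 (h2 h hh)) p hp
      exact (Nat.Prime.coprime_iff_not_dvd (hSp p hp)).1 h3.symm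
    · rintro ⟨h1, h2⟩
      refine ⟨h1, fun h hh => ?_⟩
      apply Nat.Coprime.prod_right
      intro p hp
      exact ((Nat.Prime.coprime_iff_not_dvd (hSp p hp)).2 (h2 p hp h hh)).symm
  have hper : Function.Periodic (fun n => n ≡ a [MOD q] ∧ ∀ p ∈ S, ∀ h ∈ H, ¬ p ∣ n + h)
      (q * prim t) := by
    intro n
    apply propext
    have hqM : q ∣ q * prim t := Dvd.intro _ rfl
    have e1 : (n + q * prim t ≡ a [MOD q]) ↔ (n ≡ a [MOD q]) := by
      unfold Nat.ModEq
      rw [Nat.add_mul_mod_self_left]
    have e2 : ∀ p ∈ S, ∀ h, (p ∣ n + q * prim t + h ↔ p ∣ n + h) := by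
      intro p hp h
      have hpd : p ∣ q * prim t := Dvd.dvd.mul_left (hprim ▸ Finset.dvd_prod_of_mem _ hp) _
      rw [show n + q * prim t + h = q * prim t + (n + h) by ring]
      exact Nat.dvd_add_right hpd
    constructor
    · rintro ⟨h1, h2⟩
      exact ⟨e1.1 h1, fun p hp h hh hd => h2 p hp h hh ((e2 p hp h).2 hd)⟩
    · rintro ⟨h1, h2⟩
      exact ⟨e1.2 h1, fun p hp h hh hd => h2 p hp h hh ((e2 p hp h).1 hd)⟩
  have h1 : ((Finset.Ioc s (s + q * prim t * k)).filter (goodT q a H t)).card =
      k * ((Finset.range (q * prim t)).filter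
        (fun n => n ≡ a [MOD q] ∧ ∀ p ∈ S, ∀ h ∈ H, ¬ p ∣ n + h)).card := by
    rw [Finset.filter_congr (fun n _ => hgood n)]
    exact hl1_period _ _ hper s k
  have h2 := hl1_core q a hq H S hSp
  have hq0 : (q : ℝ) ≠ 0 := by exact_mod_cast hq.ne'
  rw [h1]
  push_cast
  rw [hprim, h2]
  unfold dlt
  rw [← hS]
  push_cast
  field_simp

end Pool.Agent.LibCI99
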