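import Pool.Agent.LibCI99.HLDefs

set_option autoImplicit false

namespace Pool.Agent.LibCI99

open Filter Topology

/-- `(1 - x)^k ≤ 1 - k x + k² x²` for `0 ≤ x ≤ 1`. -/
theorem one_sub_pow_le (x : ℝ) (hx0 : 0 ≤ x) (hx1 : x ≤ 1) (k : ℕ) :
    (1 - x) ^ k ≤ 1 - k * x + (k : ℝ) ^ 2 * x ^ 2 := by
  induction k with
  | zero => simp
  | succ n ih =>
    have h0 : 0 ≤ 1 - x := by linarith
    have hn : (0 : ℝ) ≤ n := Nat.cast_nonneg n
    have h1 := mul_le_mul_of_nonneg_right ih h0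
    rw [pow_succ]
    refine h1.trans ?_
    push_cast
    have h2 : 0 ≤ (n : ℝ) ^ 2 * x ^ 2 * x := by positivity
    have h3 : 0 ≤ (n : ℝ) * x ^ 2 := by positivity
    nlinarith [sq_nonneg x]

theorem occ_of_gt (H : Finset ℕ) (p : ℕ) (h : ∀ h ∈ H, h < p) : occ H p = H.card := by
  unfold occ
  rw [Finset.card_image_of_injOn]
  intro x hx y hy hxy
  simpa [Nat.mod_eq_of_lt (h x hx), Nat.mod_eq_of_lt (h y hy)] using hxy

theorem loc_sub_one (q a : ℕ) (hq : 0 < q) (H : Finset ℕ) (p : ℕ) (hp : p.Prime)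
    (h : ∀ h ∈ H, h < p) (hpq : q < p) :
    ‖loc q a H p - 1‖ ≤ 2 ^ H.card * (H.card : ℝ) ^ 2 * (1 / (p : ℝ) ^ 2) := by
  have hdvd : ¬ p ∣ q := fun hd => absurd (Nat.le_of_dvd hq hd) (not_le.2 hpq)
  have hp2 : (2 : ℝ) ≤ p := by exact_mod_cast hp.two_le
  have hp0 : (0 : ℝ) < p := by linarith
  have hx0 : (0 : ℝ) ≤ 1 / p := by positivity
  have hx1 : (1 : ℝ) / p ≤ 1 / 2 := by
    rw [div_le_div_iff₀ hp0 (by norm_num)]; linarith
  have hpow : (1 / 2 : ℝ) ^ H.card ≤ (1 - 1 / (p : ℝ)) ^ H.card :=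
    pow_le_pow_left₀ (by norm_num) (by linarith) _
  have hpos : (0 : ℝ) < (1 / 2 : ℝ) ^ H.card := by positivity
  have hpos2 : 0 < (1 - 1 / (p : ℝ)) ^ H.card := lt_of_lt_of_le hpos hpow
  have h1 := one_sub_pow_le (1 / p) hx0 (by linarith) H.card
  have h2 : 1 - (H.card : ℝ) * (1 / p) ≤ (1 - 1 / (p : ℝ)) ^ H.card := by
    have := one_add_mul_le_pow (a := -(1 / (p : ℝ))) (by linarith) H.card
    have h4 : (1 : ℝ) + -(1 / p) = 1 - 1 / p := by ring
    rw [h4] at this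
    linarith
  unfold loc
  rw [if_neg hdvd, occ_of_gt H p h]
  have h3 : (1 - (H.card : ℝ) / p) / (1 - 1 / (p : ℝ)) ^ H.card - 1 =
      -(((1 - 1 / (p : ℝ)) ^ H.card - (1 - (H.card : ℝ) * (1 / p))) / (1 - 1 / (p : ℝ)) ^ H.card) := by
    have hW := hpos2.ne'
    generalize (1 - 1 / (p : ℝ)) ^ H.card = W at hW
    rw [sub_div W, div_self hW]
    ring
  rw [h3, norm_neg, Real.norm_of_nonneg (div_nonneg (by linarith) hpos2.le), div_le_iff₀ hpos2]
  have h5 : ((1 - 1 / (p : ℝ)) ^ H.card - (1 - (H.card : ℝ) * (1 / p))) ≤ (H.card : ℝ) ^ 2 * (1 / (p : ℝ) ^ 2) := by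
    have h6 : (1 / (p : ℝ)) ^ 2 = 1 / (p : ℝ) ^ 2 := by rw [one_div, one_div, inv_pow]
    rw [h6] at h1
    linarith
  refine h5.trans ?_
  have h7 : (1 : ℝ) ≤ 2 ^ H.card * (1 - 1 / (p : ℝ)) ^ H.card := by
    have h8 : (2 : ℝ) ^ H.card * (1 / 2 : ℝ) ^ H.card = 1 := by
      rw [← mul_pow]; norm_num
    exact h8.symm.le.trans (mul_le_mul_of_nonneg_left hpow (by positivity))
  have h9 : 0 ≤ (H.card : ℝ) ^ 2 * (1 / (p : ℝ) ^ 2) := by positivity
  nlinarith

/-- HL2a -/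
theorem multipliable_loc (q a : ℕ) (hq : 0 < q) (H : Finset ℕ) :
    Multipliable (fun p : Nat.Primes => loc q a H p) := by
  have hs : Summable (fun p : Nat.Primes => 2 ^ H.card * (H.card : ℝ) ^ 2 * (1 / ((p : ℕ) : ℝ) ^ 2)) := by
    refine Summable.mul_left _ ?_
    exact (Real.summable_one_div_nat_pow.mpr one_lt_two).comp_injective Nat.Primes.coe_nat_injective
  have hfin : {p : Nat.Primes | ¬ (‖loc q a H p - 1‖ ≤
      2 ^ H.card * (H.card : ℝ) ^ 2 * (1 / ((p : ℕ) : ℝ) ^ 2))}.Finite := by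
    refine Set.Finite.subset (((Set.finite_Iic (q + H.sup id))).preimage
      (Nat.Primes.coe_nat_injective.injOn)) ?_
    intro p hp
    by_contra hcon
    apply hp
    have hcon' : ¬ ((p : ℕ) ≤ q + H.sup id) := hcon
    rw [not_le] at hcon'
    refine loc_sub_one q a hq H p p.2 ?_ (by omega)
    intro h hh
    have := Finset.le_sup (f := id) hh
    simp only [id] at this
    change h ≤ H.sup id at this
    omega
  have hs2 : Summable (fun p : Nat.Primes => loc q a H p - 1) :=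
    hs.of_norm_bounded_eventually hfin
  have := Real.multipliable_one_add_of_summable hs2
  refine this.congr fun p => ?_
  ring

/-- HL2b -/
theorem tendsto_dlt (q a : ℕ) (hq : 0 < q) (H : Finset ℕ) :
    Tendsto (fun t : ℕ => dlt q a H t / vee t ^ H.card) atTop (𝓝 (hlConst q a H)) := by
  have h1 := (multipliable_loc q a hq H).hasProd
  have h2 : Tendsto (fun t : ℕ => ((Finset.range (t + 1)).subtype Nat.Prime : Finset Nat.Primes))
      atTop atTop := by
    refine tendsto_atTop_finset_of_monotone ?_ ?_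
    · intro s t hst x hx
      rw [Finset.mem_subtype] at hx ⊢
      rw [Finset.mem_range] at hx ⊢
      omega
    · intro x
      refine ⟨x.1, ?_⟩
      rw [Finset.mem_subtype, Finset.mem_range]
      exact Nat.lt_succ_self _
  have h3 := (h1.comp h2).const_mul (1 / (q : ℝ))
  refine h3.congr fun t => ?_
  have h4 : ∏ p ∈ ((Finset.range (t + 1)).subtype Nat.Prime : Finset Nat.Primes), loc q a H p =
      ∏ p ∈ (Finset.range (t + 1)).filter Nat.Prime, loc q a H p :=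
    Finset.prod_subtype_eq_prod_filter (fun p => loc q a H p)
  refine (congrArg (fun z : ℝ => 1 / (q : ℝ) * z) h4).trans ?_
  unfold dlt vee loc
  rw [Finset.prod_div_distrib, Finset.prod_pow]
  ring

end Pool.Agent.LibCI99
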