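import Pool.Agent.LibCI99.HLDefs

namespace Pool.Agent.LibCI99

open Filter Topology

theorem one_sub_inv_pos {q : ℕ} (hq : q.Prime) : 0 < 1 - 1 / (q : ℝ) := by
  have h1 : (1 : ℝ) < q := by exact_mod_cast hq.one_lt
  rw [sub_pos, div_lt_one (by linarith)]
  exact h1

/-- HL3a -/
theorem vee_pos (t : ℕ) : 0 < vee t :=
  Finset.prod_pos fun _ hq => one_sub_inv_pos (Finset.mem_filter.1 hq).2

theorem vee_succ (t : ℕ) :
    vee (t + 1) = if (t + 1).Prime then (1 - 1 / ((t + 1 : ℕ) : ℝ)) * vee t else vee t := by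
  unfold vee
  rw [Finset.range_add_one (n := t + 1), Finset.filter_insert]
  split_ifs with h
  · rw [Finset.prod_insert]
    simp
  · rfl

theorem vee_anti : Antitone vee := by
  refine antitone_nat_of_succ_le fun t => ?_
  rw [vee_succ]
  split_ifs with h
  · have h1 := vee_pos t
    have h2 : (0 : ℝ) ≤ 1 / ((t + 1 : ℕ) : ℝ) := by positivity
    nlinarith
  · exact le_rfl

theorem vee_zero : vee 0 = 1 := by
  unfold vee
  rw [Finset.prod_eq_one]
  intro q hq
  rw [Finset.mem_filter, Finset.mem_range] at hq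
  have := hq.2.two_le
  omega

theorem vee_lower_succ (t : ℕ) : 1 / ((t : ℝ) + 1) ≤ vee (t + 1) := by
  induction t with
  | zero =>
    rw [vee_succ, vee_zero]
    norm_num
  | succ t ih =>
    rw [vee_succ]
    have h0 : (0 : ℝ) < (t : ℝ) + 1 := by positivity
    have h1 : (0 : ℝ) < (t : ℝ) + 1 + 1 := by positivity
    have h2 : (1 - 1 / ((t + 1 + 1 : ℕ) : ℝ)) * (1 / ((t : ℝ) + 1)) =
        1 / (((t + 1 : ℕ) : ℝ) + 1) := by
      push_cast
      field_simp
      ring
    split_ifs with h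
    · rw [← h2]
      exact mul_le_mul_of_nonneg_left ih (one_sub_inv_pos h).le
    · refine le_trans ?_ ih
      push_cast
      exact one_div_le_one_div_of_le h0 (by linarith)

theorem vee_lower (t : ℕ) : 1 / ((t : ℝ) + 1) ≤ vee t :=
  (vee_lower_succ t).trans (vee_anti (Nat.le_succ t))

theorem prim_pos (t : ℕ) : 0 < prim t :=
  Finset.prod_pos fun _ hq => (Finset.mem_filter.1 hq).2.pos

theorem prim_le (t : ℕ) : prim t ≤ 4 ^ t := primorial_le_four_pow t

theorem prim_dvd {s t : ℕ} (h : s ≤ t) : prim s ∣ prim t := by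
  refine Finset.prod_dvd_prod_of_subset _ _ _ ?_
  exact Finset.filter_subset_filter _ (Finset.range_mono (Nat.succ_le_succ h))

theorem occ_le (H : Finset ℕ) {p : ℕ} (hp : 0 < p) : occ H p ≤ p := by
  unfold occ
  have h1 : H.image (fun h => h % p) ⊆ Finset.range p := by
    intro x hx
    rw [Finset.mem_image] at hx
    obtain ⟨h, _, rfl⟩ := hx
    exact Finset.mem_range.2 (Nat.mod_lt _ hp)
  have h2 := Finset.card_le_card h1
  rwa [Finset.card_range] at h2

theorem dlt_nonneg (q a : ℕ) (H : Finset ℕ) (t : ℕ) : 0 ≤ dlt q a H t := by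
  unfold dlt
  refine mul_nonneg (by positivity) (Finset.prod_nonneg fun p hp => ?_)
  have hp1 := (Finset.mem_filter.1 hp).2.pos
  split_ifs
  · exact zero_le_one
  · exact le_rfl
  · rw [sub_nonneg, div_le_one (by exact_mod_cast hp1)]
    exact_mod_cast occ_le H hp1

end Pool.Agent.LibCI99
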