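import Pool.Agent.LibCI99.HL1
import Pool.Agent.LibCI99.HL3

namespace Pool.Agent.LibCI99

open Filter Topology


/-- HL4: sum over a block on which `T` is constant -/
theorem block_sum (T : ℕ → ℕ) (hT : Monotone T) (q a : ℕ) (hq : 0 < q) (H : Finset ℕ) (m : ℕ)
    (hm : ∀ h ∈ H, h ≤ m) (s N t : ℕ) (hN : q * prim t ∣ N) (hs : 3 ≤ s)
    (hc1 : T (s + 1) = t) (hc2 : T (s + N + m) = t) :
    (N : ℝ) * (dlt q a H t / vee t ^ H.card) / Real.log ((s + N + m : ℕ) : ℝ) ^ H.card ≤
        ∑ n ∈ (Finset.Ioc s (s + N)).filter (fun n => n ≡ a [MOD q]), ∏ h ∈ H, dens T (n + h) ∧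
      ∑ n ∈ (Finset.Ioc s (s + N)).filter (fun n => n ≡ a [MOD q]), ∏ h ∈ H, dens T (n + h) ≤
        (N : ℝ) * (dlt q a H t / vee t ^ H.card) / Real.log (s : ℝ) ^ H.card := by
  classical
  have hls : 0 < Real.log (s : ℝ) := Real.log_pos (by
    have : (3 : ℝ) ≤ s := by exact_mod_cast hs
    linarith)
  have hlS : 0 < Real.log ((s + N + m : ℕ) : ℝ) := Real.log_pos (by
    have : (3 : ℝ) ≤ ((s + N + m : ℕ) : ℝ) := by exact_mod_cast (by omega : 3 ≤ s + N + m)
    linarith)
  have hv := vee_pos t
  -- the value of the terms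
  have key : ∀ n ∈ Finset.Ioc s (s + N), ∏ h ∈ H, dens T (n + h)
      = if ∀ h ∈ H, Nat.Coprime (n + h) (prim t) then
          ∏ h ∈ H, 1 / (vee t * Real.log ((n + h : ℕ) : ℝ)) else 0 := by
    intro n hn
    rw [Finset.mem_Ioc] at hn
    have hTt : ∀ h ∈ H, T (n + h) = t := by
      intro h hh
      have h1 := hm h hh
      apply le_antisymm
      · rw [← hc2]; exact hT (by omega)
      · rw [← hc1]; exact hT (by omega)
    split_ifs with hg
    · refine Finset.prod_congr rfl fun h hh => ?_
      unfold dens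
      rw [hTt h hh, if_pos (hg h hh)]
    · push Not at hg
      obtain ⟨h, hh, hc⟩ := hg
      refine Finset.prod_eq_zero hh ?_
      unfold dens
      rw [hTt h hh, if_neg hc]
  have hb : ∀ n ∈ Finset.Ioc s (s + N), ∀ h ∈ H,
      Real.log (s : ℝ) ≤ Real.log ((n + h : ℕ) : ℝ) ∧
        Real.log ((n + h : ℕ) : ℝ) ≤ Real.log ((s + N + m : ℕ) : ℝ) := by
    intro n hn h hh
    rw [Finset.mem_Ioc] at hn
    have h1 := hm h hh
    refine ⟨Real.log_le_log ?_ ?_, Real.log_le_log ?_ ?_⟩
    · exact_mod_cast (by omega : 0 < s)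
    · exact_mod_cast (by omega : s ≤ n + h)
    · exact_mod_cast (by omega : 0 < n + h)
    · exact_mod_cast (by omega : n + h ≤ s + N + m)
  have hcg := card_good q a hq H t s N hN
  -- the sum of a constant over the good n
  have hsum : ∀ c : ℝ, ∑ n ∈ (Finset.Ioc s (s + N)).filter (fun n => n ≡ a [MOD q]),
      (if ∀ h ∈ H, Nat.Coprime (n + h) (prim t) then (1 / (vee t * c)) ^ H.card else 0)
        = (N : ℝ) * (dlt q a H t / vee t ^ H.card) / c ^ H.card := by
    intro c
    rw [← Finset.sum_filter, Finset.filter_filter, Finset.sum_const, nsmul_eq_mul]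
    have h1 : (Finset.Ioc s (s + N)).filter
        (fun n => n ≡ a [MOD q] ∧ ∀ h ∈ H, Nat.Coprime (n + h) (prim t))
          = (Finset.Ioc s (s + N)).filter (goodT q a H t) := by
      ext n
      simp only [Finset.mem_filter]
      rfl
    rw [h1, hcg, one_div, inv_pow, mul_pow, div_eq_mul_inv, div_eq_mul_inv, mul_inv]
    ring
  constructor
  · rw [← hsum]
    refine Finset.sum_le_sum fun n hn => ?_
    rw [Finset.mem_filter] at hn
    rw [key n hn.1]
    split_ifs
    · rw [← Finset.prod_const]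
      refine Finset.prod_le_prod (fun h hh => by positivity) fun h hh => ?_
      have h2 := hb n hn.1 h hh
      exact one_div_le_one_div_of_le (mul_pos hv (hls.trans_le h2.1))
        (mul_le_mul_of_nonneg_left h2.2 hv.le)
    · exact le_rfl
  · rw [← hsum]
    refine Finset.sum_le_sum fun n hn => ?_
    rw [Finset.mem_filter] at hn
    rw [key n hn.1]
    split_ifs
    · rw [← Finset.prod_const]
      refine Finset.prod_le_prod (fun h hh => ?_) fun h hh => ?_
      · have h2 := hb n hn.1 h hh
        have := mul_pos hv (hls.trans_le h2.1)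
        positivity
      · have h2 := hb n hn.1 h hh
        exact one_div_le_one_div_of_le (mul_pos hv hls)
          (mul_le_mul_of_nonneg_left h2.1 hv.le)
    · exact le_rfl

end Pool.Agent.LibCI99
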