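import Pool.Agent.LibCI99.HL3

namespace Pool.Agent.LibCI99

open Filter Topology


/-- HL5: trivial bounds for the terms -/
theorem dens_nonneg (T : ℕ → ℕ) (n : ℕ) : 0 ≤ dens T n := by
  unfold dens
  split_ifs with h
  · have h1 := (vee_pos (T n)).le
    have h2 : 0 ≤ Real.log (n : ℝ) := Real.log_natCast_nonneg n
    positivity
  · exact le_refl _

theorem dens_le_aux (T : ℕ → ℕ) (n : ℕ) : dens T n ≤ 1 / (vee (T n) * Real.log n) := by
  unfold dens
  split_ifs with h
  · exact le_refl _
  · have h1 := (vee_pos (T n)).le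
    have h2 : 0 ≤ Real.log (n : ℝ) := Real.log_natCast_nonneg n
    positivity

theorem prod_dens_le (T : ℕ → ℕ) (hT : Monotone T) (H : Finset ℕ) (s n X : ℕ) (hs : 3 ≤ s)
    (hsn : s ≤ n) (hX : ∀ h ∈ H, n + h ≤ X) :
    ∏ h ∈ H, dens T (n + h) ≤ (1 / (vee (T X) * Real.log (s : ℝ))) ^ H.card := by
  have hlogs : 0 < Real.log (s : ℝ) := Real.log_pos (by exact_mod_cast (by omega : 1 < s))
  rw [← Finset.prod_const]
  refine Finset.prod_le_prod (fun h _ => dens_nonneg T _) (fun h hh => ?_)
  refine (dens_le_aux T (n + h)).trans ?_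
  have hv : vee (T X) ≤ vee (T (n + h)) := vee_anti (hT (hX h hh))
  have hl : Real.log (s : ℝ) ≤ Real.log ((n + h : ℕ) : ℝ) :=
    Real.log_le_log (by exact_mod_cast (by omega : 0 < s)) (by exact_mod_cast (by omega : s ≤ n + h))
  have hvp := vee_pos (T X)
  refine one_div_le_one_div_of_le (by positivity) ?_
  exact mul_le_mul hv hl hlogs.le (hvp.le.trans hv)

theorem exists_prod_dens_le (T : ℕ → ℕ) (hT : Slow T) (H : Finset ℕ) :
    ∃ C : ℝ, ∀ n : ℕ, 1 ≤ n → ∏ h ∈ H, dens T (n + h) ≤ C := by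
  have hlog3 : 1 < Real.log 3 := by
    have h1 : Real.exp 1 < 3 := lt_trans Real.exp_one_lt_d9 (by norm_num)
    rw [Real.lt_log_iff_exp_lt (by norm_num)]
    exact h1
  have key : ∀ m : ℕ, 1 ≤ m → dens T m ≤ max 2 (dens T 2) := by
    intro m hm
    rcases Nat.lt_or_ge m 3 with h3 | h3
    · rcases Nat.lt_or_ge m 2 with h2 | h2
      · have : m = 1 := by omega
        subst this
        refine le_trans (dens_le_aux T 1) ?_
        simp
      · have : m = 2 := by omega
        subst this
        exact le_max_right _ _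
    · refine le_trans ?_ (le_max_left _ _)
      have hlm : Real.log 3 ≤ Real.log (m : ℝ) :=
        Real.log_le_log (by norm_num) (by exact_mod_cast h3)
      have hlm1 : 1 < Real.log (m : ℝ) := lt_of_lt_of_le hlog3 hlm
      have hlm0 : 0 < Real.log (m : ℝ) := by linarith
      refine (dens_le_aux T m).trans ?_
      have hv := vee_lower (T m)
      have hvp := vee_pos (T m)
      have ht0 : (0 : ℝ) ≤ (T m : ℝ) := Nat.cast_nonneg _
      have htm : (T m : ℝ) ≤ Real.log (m : ℝ) := by
        rcases hT.le m h3 with h | h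
        · have := Real.log_le_sub_one_of_pos hlm0
          linarith
        · rw [h]; simp only [Nat.cast_zero]; exact hlm0.le
      rw [div_le_iff₀ (by positivity)]
      have h1 : 1 / ((T m : ℝ) + 1) * ((T m : ℝ) + 1) = 1 := by field_simp
      have h2 : 1 ≤ vee (T m) * ((T m : ℝ) + 1) := by
        calc (1 : ℝ) = 1 / ((T m : ℝ) + 1) * ((T m : ℝ) + 1) := h1.symm
          _ ≤ vee (T m) * ((T m : ℝ) + 1) := mul_le_mul_of_nonneg_right hv (by positivity)
      have h3' : vee (T m) * ((T m : ℝ) + 1) ≤ vee (T m) * (2 * Real.log (m : ℝ)) :=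
        mul_le_mul_of_nonneg_left (by linarith) hvp.le
      linarith
  refine ⟨(max 2 (dens T 2)) ^ H.card, fun n hn => ?_⟩
  rw [← Finset.prod_const]
  exact Finset.prod_le_prod (fun h _ => dens_nonneg T _) (fun h _ => key (n + h) (by omega))

end Pool.Agent.LibCI99
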