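import Pool.Agent.LibCI99.HL2
import Pool.Agent.LibCI99.HL4
import Pool.Agent.LibCI99.HL5

namespace Pool.Agent.LibCI99

open Filter Topology


lemma sum_jump (f : ℕ → ℕ) (hf : Monotone f) (J : ℕ) :
    ∑ j ∈ Finset.range J, (f (j + 2) - f j) ≤ f (J + 1) + f J := by
  induction J with
  | zero => simp
  | succ J ih =>
    rw [Finset.sum_range_succ]
    have h1 : f J ≤ f (J + 1) := hf (by omega)
    have h2 : f (J + 1) ≤ f (J + 2) := hf (by omega)
    have h3 : f (J + 1 + 1) = f (J + 2) := rfl
    omega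

lemma card_bad (f : ℕ → ℕ) (hf : Monotone f) (J : ℕ) :
    ((Finset.range J).filter (fun j => f j ≠ f (j + 2))).card ≤ 2 * f (J + 1) := by
  classical
  have h1 : ((Finset.range J).filter (fun j => f j ≠ f (j + 2))).card ≤
      ∑ j ∈ Finset.range J, (f (j + 2) - f j) := by
    rw [Finset.card_filter]
    apply Finset.sum_le_sum
    intro j _
    have : f j ≤ f (j + 2) := hf (by omega)
    split_ifs with h
    · omega
    · omega
  have h2 := sum_jump f hf J
  have h3 : f J ≤ f (J + 1) := hf (by omega)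
  omega

/-- weight of the tuple `H` at `n`, restricted to the class `a mod q` -/
noncomputable def wt (T : ℕ → ℕ) (H : Finset ℕ) (q a n : ℕ) : ℝ :=
  if n ≡ a [MOD q] then ∏ h ∈ H, dens T (n + h) else 0

lemma wt_nonneg (T : ℕ → ℕ) (H : Finset ℕ) (q a n : ℕ) : 0 ≤ wt T H q a n := by
  unfold wt
  split_ifs
  · exact Finset.prod_nonneg (fun h _ => dens_nonneg T _)
  · exact le_rfl

lemma wt_le (T : ℕ → ℕ) (H : Finset ℕ) (q a n : ℕ) :
    wt T H q a n ≤ ∏ h ∈ H, dens T (n + h) := by
  unfold wt
  split_ifs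
  · exact le_rfl
  · exact Finset.prod_nonneg (fun h _ => dens_nonneg T _)

lemma mainTerm_eq (T : ℕ → ℕ) (H : Finset ℕ) (q a x : ℕ) :
    mainTerm T H q a x = ∑ n ∈ Finset.Ioc 0 x, wt T H q a n := by
  unfold mainTerm wt
  rw [← Finset.sum_filter]
  rfl

lemma sum_split (f : ℕ → ℝ) (y Q J x : ℕ) (h : y + J * Q ≤ x) :
    ∑ n ∈ Finset.Ioc 0 x, f n = ∑ n ∈ Finset.Ioc 0 y, f n +
      ∑ j ∈ Finset.range J, ∑ n ∈ Finset.Ioc (y + j * Q) (y + j * Q + Q), f n +
      ∑ n ∈ Finset.Ioc (y + J * Q) x, f n := by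
  have key : ∀ J : ℕ, ∑ n ∈ Finset.Ioc 0 (y + J * Q), f n = ∑ n ∈ Finset.Ioc 0 y, f n +
      ∑ j ∈ Finset.range J, ∑ n ∈ Finset.Ioc (y + j * Q) (y + j * Q + Q), f n := by
    intro J
    induction J with
    | zero => simp
    | succ J ih =>
      rw [Finset.sum_range_succ, ← add_assoc, ← ih]
      have e : y + (J + 1) * Q = y + J * Q + Q := by ring
      rw [e]
      rw [Finset.sum_Ioc_consecutive f (Nat.zero_le _) (Nat.le_add_right _ _)]
  rw [← key J, Finset.sum_Ioc_consecutive f (Nat.zero_le _) h]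

/-- finite form of the asymptotics -/
lemma mainTerm_bounds (T : ℕ → ℕ) (hT : Monotone T) (q a : ℕ) (hq : 0 < q) (H : Finset ℕ)
    (m : ℕ) (hm : ∀ h ∈ H, h ≤ m) (C : ℝ)
    (hC : ∀ n : ℕ, 1 ≤ n → ∏ h ∈ H, dens T (n + h) ≤ C)
    (lo hi : ℝ) (hlo : 0 ≤ lo) (y x Q : ℕ) (hy : 3 ≤ y) (hyx : y ≤ x)
    (hQ : q * prim (T (2 * x)) ∣ Q) (hQpos : 0 < Q) (hmQ : m ≤ Q) (hQx : Q ≤ x)
    (hr : ∀ t, T y ≤ t → lo ≤ dlt q a H t / vee t ^ H.card ∧
      dlt q a H t / vee t ^ H.card ≤ hi) :
    mainTerm T H q a x ≤ C * y + x * hi / Real.log y ^ H.card +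
        (4 * (T (2 * x) : ℝ) + 1) * Q * (((T (2 * x) : ℝ) + 1) / Real.log y) ^ H.card ∧
      ((x : ℝ) - y - Q - 4 * (T (2 * x) : ℝ) * Q) * lo / Real.log ((2 * x : ℕ) : ℝ) ^ H.card ≤
        mainTerm T H q a x := by
  classical
  set k := H.card with hk
  set t1 := T (2 * x) with ht1
  set J := (x - y) / Q with hJ
  have hJQ : J * Q ≤ x - y := Nat.div_mul_le_self _ _
  have hJx : y + J * Q ≤ x := by omega
  have hJQ2 : x - y < J * Q + Q := by
    have := Nat.lt_div_mul_add (a := x - y) hQpos
    rw [← hJ] at this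
    linarith
  rw [mainTerm_eq, sum_split _ y Q J x hJx]
  have hlogy : 0 < Real.log (y : ℝ) := Real.log_pos (by
    have : (3 : ℝ) ≤ y := by exact_mod_cast hy
    linarith)
  have hx3 : (3 : ℝ) ≤ x := by
    have : 3 ≤ x := le_trans hy hyx
    exact_mod_cast this
  have hlog2x : 0 < Real.log ((2 * x : ℕ) : ℝ) := Real.log_pos (by push_cast; linarith)
  have hF : ∀ n, y ≤ n → n ≤ x → wt T H q a n ≤ (((t1 : ℝ) + 1) / Real.log y) ^ k := by
    intro n hn1 hn2
    refine (wt_le T H q a n).trans ?_
    have h1 := prod_dens_le T hT H y n (2 * x) hy hn1 (fun h hh => by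
      have := hm h hh
      omega)
    refine h1.trans ?_
    apply pow_le_pow_left₀
    · have := vee_pos (T (2 * x)); positivity
    · rw [← ht1]
      have hv := vee_lower t1
      have hvp := vee_pos t1
      rw [div_le_div_iff₀ (by positivity) hlogy]
      have ht : (0 : ℝ) < (t1 : ℝ) + 1 := by positivity
      have : 1 ≤ ((t1 : ℝ) + 1) * vee t1 := by
        rw [div_le_iff₀ ht] at hv
        linarith
      nlinarith
  have hFnn : 0 ≤ (((t1 : ℝ) + 1) / Real.log y) ^ k := by positivity
  have hhi : 0 ≤ hi := hlo.trans ((hr (T y) le_rfl).1.trans (hr (T y) le_rfl).2)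
  -- good blocks
  set good : ℕ → Prop := fun j => T (y + j * Q) = T (y + (j + 2) * Q) with hgood
  have hgb : ∀ j < J, good j →
      (Q : ℝ) * lo / Real.log ((2 * x : ℕ) : ℝ) ^ k ≤
        ∑ n ∈ Finset.Ioc (y + j * Q) (y + j * Q + Q), wt T H q a n ∧
      ∑ n ∈ Finset.Ioc (y + j * Q) (y + j * Q + Q), wt T H q a n ≤
        (Q : ℝ) * hi / Real.log (y : ℝ) ^ k := by
    intro j hj hg
    have hjQ : j * Q + Q ≤ J * Q := by
      have : (j + 1) * Q ≤ J * Q := Nat.mul_le_mul_right Q hj
      linarith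
    have e1 : T (y + j * Q + 1) = T (y + j * Q) := by
      apply le_antisymm
      · rw [hg]
        apply hT
        have : (j + 2) * Q = j * Q + 2 * Q := by ring
        omega
      · exact hT (by omega)
    have e2 : T (y + j * Q + Q + m) = T (y + j * Q) := by
      apply le_antisymm
      · rw [hg]
        apply hT
        have : (j + 2) * Q = j * Q + 2 * Q := by ring
        omega
      · exact hT (by omega)
    have hsle : y + j * Q + Q + m ≤ 2 * x := by omega
    have h0 : T (y + j * Q) ≤ t1 := hT (by omega)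
    have hdvd : q * prim (T (y + j * Q)) ∣ Q :=
      (Nat.mul_dvd_mul_left _ (prim_dvd h0)).trans hQ
    have hb := block_sum T hT q a hq H m hm (y + j * Q) Q (T (y + j * Q)) hdvd
      (by omega) e1 e2
    have hrr := hr (T (y + j * Q)) (hT (by omega))
    have esum : ∑ n ∈ (Finset.Ioc (y + j * Q) (y + j * Q + Q)).filter (fun n => n ≡ a [MOD q]),
        ∏ h ∈ H, dens T (n + h) =
        ∑ n ∈ Finset.Ioc (y + j * Q) (y + j * Q + Q), wt T H q a n := by
      unfold wt
      rw [← Finset.sum_filter]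
    rw [esum] at hb
    have hl1 : Real.log (y : ℝ) ≤ Real.log ((y + j * Q : ℕ) : ℝ) := by
      apply Real.log_le_log
      · have : (3 : ℝ) ≤ y := by exact_mod_cast hy
        linarith
      · exact_mod_cast Nat.le_add_right _ _
    have hl2 : Real.log ((y + j * Q + Q + m : ℕ) : ℝ) ≤ Real.log ((2 * x : ℕ) : ℝ) := by
      apply Real.log_le_log
      · have : 0 < y + j * Q + Q + m := by omega
        exact_mod_cast this
      · exact_mod_cast hsle
    have hl3 : 0 < Real.log ((y + j * Q + Q + m : ℕ) : ℝ) := by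
      refine lt_of_lt_of_le (lt_of_lt_of_le hlogy hl1) ?_
      apply Real.log_le_log
      · have : 0 < y + j * Q := by omega
        exact_mod_cast this
      · exact_mod_cast (by omega : y + j * Q ≤ y + j * Q + Q + m)
    constructor
    · refine le_trans ?_ hb.1
      apply div_le_div₀
      · exact mul_nonneg (Nat.cast_nonneg _) (hlo.trans hrr.1)
      · exact mul_le_mul_of_nonneg_left hrr.1 (Nat.cast_nonneg _)
      · positivity
      · exact pow_le_pow_left₀ hl3.le hl2 _
    · refine le_trans hb.2 ?_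
      apply div_le_div₀
      · exact mul_nonneg (Nat.cast_nonneg _) hhi
      · exact mul_le_mul_of_nonneg_left hrr.2 (Nat.cast_nonneg _)
      · positivity
      · exact pow_le_pow_left₀ hlogy.le hl1 _
  have hbad : ∀ j < J, ∑ n ∈ Finset.Ioc (y + j * Q) (y + j * Q + Q), wt T H q a n ≤
      (Q : ℝ) * (((t1 : ℝ) + 1) / Real.log y) ^ k := by
    intro j hj
    have hjQ : j * Q + Q ≤ J * Q := by
      have : (j + 1) * Q ≤ J * Q := Nat.mul_le_mul_right Q hj
      linarith
    calc ∑ n ∈ Finset.Ioc (y + j * Q) (y + j * Q + Q), wt T H q a n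
        ≤ ∑ n ∈ Finset.Ioc (y + j * Q) (y + j * Q + Q), (((t1 : ℝ) + 1) / Real.log y) ^ k := by
          apply Finset.sum_le_sum
          intro n hn
          rw [Finset.mem_Ioc] at hn
          exact hF n (by omega) (by omega)
      _ = (Q : ℝ) * (((t1 : ℝ) + 1) / Real.log y) ^ k := by
          rw [Finset.sum_const, Nat.card_Ioc, nsmul_eq_mul]
          congr 2
          omega
  -- number of bad blocks
  have hcb : (((Finset.range J).filter (fun j => ¬ good j)).card : ℝ) ≤ 2 * (2 * (t1 : ℝ)) := by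
    have hmono : Monotone (fun j : ℕ => T (y + j * Q)) := by
      intro i j hij
      exact hT (by have := Nat.mul_le_mul_right Q hij; omega)
    have h1 := card_bad (fun j => T (y + j * Q)) hmono J
    have h2 : T (y + (J + 1) * Q) ≤ t1 := by
      rw [ht1]
      apply hT
      have : (J + 1) * Q = J * Q + Q := by ring
      omega
    have h3 : ((Finset.range J).filter (fun j => ¬ good j)).card ≤ 2 * t1 := by
      calc _ = ((Finset.range J).filter (fun j => T (y + j * Q) ≠ T (y + (j + 2) * Q))).card := rfl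
        _ ≤ 2 * T (y + (J + 1) * Q) := h1
        _ ≤ 2 * t1 := by omega
    have h4 : (((Finset.range J).filter (fun j => ¬ good j)).card : ℝ) ≤ 2 * (t1 : ℝ) := by
      exact_mod_cast h3
    have : (0 : ℝ) ≤ t1 := Nat.cast_nonneg _
    linarith
  have hbadnn : (0 : ℝ) ≤ (((Finset.range J).filter (fun j => ¬ good j)).card : ℝ) :=
    Nat.cast_nonneg _
  have hcardsum : (((Finset.range J).filter good).card : ℝ) +
      (((Finset.range J).filter (fun j => ¬ good j)).card : ℝ) = J := by
    have := Finset.card_filter_add_card_filter_not (s := Finset.range J) good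
    rw [Finset.card_range] at this
    exact_mod_cast this
  have hJQr : (J : ℝ) * Q ≤ x := by exact_mod_cast (by omega : J * Q ≤ x)
  have hJQr2 : (x : ℝ) - y - Q ≤ (J : ℝ) * Q := by
    have : x ≤ y + J * Q + Q := by omega
    have : (x : ℝ) ≤ y + J * Q + Q := by exact_mod_cast this
    linarith
  have hmid : ∑ j ∈ Finset.range J, ∑ n ∈ Finset.Ioc (y + j * Q) (y + j * Q + Q), wt T H q a n =
      ∑ j ∈ (Finset.range J).filter good, ∑ n ∈ Finset.Ioc (y + j * Q) (y + j * Q + Q),
        wt T H q a n +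
      ∑ j ∈ (Finset.range J).filter (fun j => ¬ good j),
        ∑ n ∈ Finset.Ioc (y + j * Q) (y + j * Q + Q), wt T H q a n :=
    (Finset.sum_filter_add_sum_filter_not _ _ _).symm
  constructor
  · -- upper bound
    have hlow : ∑ n ∈ Finset.Ioc 0 y, wt T H q a n ≤ C * y := by
      calc ∑ n ∈ Finset.Ioc 0 y, wt T H q a n ≤ ∑ n ∈ Finset.Ioc 0 y, C := by
            apply Finset.sum_le_sum
            intro n hn
            rw [Finset.mem_Ioc] at hn
            exact (wt_le _ _ _ _ _).trans (hC n (by omega))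
        _ = C * y := by
            rw [Finset.sum_const, Nat.card_Ioc, nsmul_eq_mul]
            simp [mul_comm]
    have htail : ∑ n ∈ Finset.Ioc (y + J * Q) x, wt T H q a n ≤
        (Q : ℝ) * (((t1 : ℝ) + 1) / Real.log y) ^ k := by
      calc ∑ n ∈ Finset.Ioc (y + J * Q) x, wt T H q a n
          ≤ ∑ n ∈ Finset.Ioc (y + J * Q) x, (((t1 : ℝ) + 1) / Real.log y) ^ k := by
            apply Finset.sum_le_sum
            intro n hn
            rw [Finset.mem_Ioc] at hn
            exact hF n (by omega) (by omega)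
        _ = ((x - (y + J * Q) : ℕ) : ℝ) * (((t1 : ℝ) + 1) / Real.log y) ^ k := by
            rw [Finset.sum_const, Nat.card_Ioc, nsmul_eq_mul]
        _ ≤ (Q : ℝ) * (((t1 : ℝ) + 1) / Real.log y) ^ k := by
            apply mul_le_mul_of_nonneg_right _ hFnn
            exact_mod_cast (by omega : x - (y + J * Q) ≤ Q)
    have hg : ∑ j ∈ (Finset.range J).filter good,
        ∑ n ∈ Finset.Ioc (y + j * Q) (y + j * Q + Q), wt T H q a n ≤
        x * hi / Real.log (y : ℝ) ^ k := by
      calc _ ≤ ∑ j ∈ (Finset.range J).filter good, (Q : ℝ) * hi / Real.log (y : ℝ) ^ k := by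
            apply Finset.sum_le_sum
            intro j hj
            rw [Finset.mem_filter, Finset.mem_range] at hj
            exact (hgb j hj.1 hj.2).2
        _ = (((Finset.range J).filter good).card : ℝ) * ((Q : ℝ) * hi / Real.log (y : ℝ) ^ k) := by
            rw [Finset.sum_const, nsmul_eq_mul]
        _ ≤ (J : ℝ) * ((Q : ℝ) * hi / Real.log (y : ℝ) ^ k) := by
            apply mul_le_mul_of_nonneg_right
            · linarith
            · positivity
        _ = (J * Q : ℝ) * hi / Real.log (y : ℝ) ^ k := by ring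
        _ ≤ x * hi / Real.log (y : ℝ) ^ k := by
            apply div_le_div_of_nonneg_right _ (by positivity)
            exact mul_le_mul_of_nonneg_right hJQr hhi
    have hb : ∑ j ∈ (Finset.range J).filter (fun j => ¬ good j),
        ∑ n ∈ Finset.Ioc (y + j * Q) (y + j * Q + Q), wt T H q a n ≤
        (4 * (t1 : ℝ)) * ((Q : ℝ) * (((t1 : ℝ) + 1) / Real.log y) ^ k) := by
      calc _ ≤ ∑ j ∈ (Finset.range J).filter (fun j => ¬ good j),
            (Q : ℝ) * (((t1 : ℝ) + 1) / Real.log y) ^ k := by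
            apply Finset.sum_le_sum
            intro j hj
            rw [Finset.mem_filter, Finset.mem_range] at hj
            exact hbad j hj.1
        _ = (((Finset.range J).filter (fun j => ¬ good j)).card : ℝ) *
            ((Q : ℝ) * (((t1 : ℝ) + 1) / Real.log y) ^ k) := by
            rw [Finset.sum_const, nsmul_eq_mul]
        _ ≤ _ := by
            apply mul_le_mul_of_nonneg_right
            · linarith
            · positivity
    rw [hmid]
    have := add_le_add (add_le_add hlow (add_le_add hg hb)) htail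
    refine this.trans (le_of_eq ?_)
    ring
  · -- lower bound
    have hlow : 0 ≤ ∑ n ∈ Finset.Ioc 0 y, wt T H q a n :=
      Finset.sum_nonneg (fun n _ => wt_nonneg _ _ _ _ _)
    have htail : 0 ≤ ∑ n ∈ Finset.Ioc (y + J * Q) x, wt T H q a n :=
      Finset.sum_nonneg (fun n _ => wt_nonneg _ _ _ _ _)
    have hb : 0 ≤ ∑ j ∈ (Finset.range J).filter (fun j => ¬ good j),
        ∑ n ∈ Finset.Ioc (y + j * Q) (y + j * Q + Q), wt T H q a n :=
      Finset.sum_nonneg (fun j _ => Finset.sum_nonneg (fun n _ => wt_nonneg _ _ _ _ _))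
    have hg : ((x : ℝ) - y - Q - 4 * (t1 : ℝ) * Q) * lo /
        Real.log ((2 * x : ℕ) : ℝ) ^ k ≤ ∑ j ∈ (Finset.range J).filter good,
        ∑ n ∈ Finset.Ioc (y + j * Q) (y + j * Q + Q), wt T H q a n := by
      calc ((x : ℝ) - y - Q - 4 * (t1 : ℝ) * Q) * lo / Real.log ((2 * x : ℕ) : ℝ) ^ k
          ≤ ((((Finset.range J).filter good).card : ℝ) * Q) * lo /
            Real.log ((2 * x : ℕ) : ℝ) ^ k := by
            apply div_le_div_of_nonneg_right _ (by positivity)
            apply mul_le_mul_of_nonneg_right _ hlo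
            have hQnn : (0 : ℝ) ≤ Q := Nat.cast_nonneg _
            have : (((Finset.range J).filter good).card : ℝ) =
              J - (((Finset.range J).filter (fun j => ¬ good j)).card : ℝ) := by linarith
            rw [this, sub_mul]
            have := mul_le_mul_of_nonneg_right hcb hQnn
            nlinarith
        _ = ∑ j ∈ (Finset.range J).filter good, (Q : ℝ) * lo /
            Real.log ((2 * x : ℕ) : ℝ) ^ k := by
            rw [Finset.sum_const, nsmul_eq_mul]
            ring
        _ ≤ _ := by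
            apply Finset.sum_le_sum
            intro j hj
            rw [Finset.mem_filter, Finset.mem_range] at hj
            exact (hgb j hj.1 hj.2).1
    rw [hmid]
    linarith

lemma tendsto_loglog_div (k : ℕ) :
    Tendsto (fun x : ℕ => Real.log ((2 * x : ℕ) : ℝ) ^ k / (x : ℝ)) atTop (𝓝 0) := by
  have h1 : Tendsto (fun y : ℝ => Real.log y ^ k / y) atTop (𝓝 0) := by
    have := (Real.isLittleO_pow_log_id_atTop (n := k)).tendsto_div_nhds_zero
    simpa using this
  have h2 : Tendsto (fun x : ℕ => ((2 * x : ℕ) : ℝ)) atTop atTop := by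
    apply tendsto_natCast_atTop_atTop.comp
    exact tendsto_id.const_mul_atTop' (by norm_num)
  have h3 := (h1.comp h2).const_mul 2
  rw [mul_zero] at h3
  refine h3.congr' ?_
  filter_upwards [eventually_gt_atTop 0] with x hx
  have : (0 : ℝ) < x := by exact_mod_cast hx
  simp only [Function.comp_apply]
  push_cast
  field_simp

/-- the cut -/
noncomputable def cut (k x : ℕ) : ℕ := ⌊(x : ℝ) / Real.log x ^ (k + 1)⌋₊

lemma tendsto_log_nat : Tendsto (fun x : ℕ => Real.log (x : ℝ)) atTop atTop :=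
  Real.tendsto_log_atTop.comp tendsto_natCast_atTop_atTop

lemma cut_le (k x : ℕ) (hx : 3 ≤ x) : cut k x ≤ x := by
  unfold cut
  have h1 : (1 : ℝ) ≤ Real.log x := by
    rw [Real.le_log_iff_exp_le (by positivity)]
    have : (3 : ℝ) ≤ x := by exact_mod_cast hx
    have := Real.exp_one_lt_d9
    linarith
  have h2 : (x : ℝ) / Real.log x ^ (k + 1) ≤ x := div_le_self (Nat.cast_nonneg _) (one_le_pow₀ h1)
  exact_mod_cast (Nat.floor_le (by positivity)).trans h2

lemma tendsto_div_logpow (k : ℕ) :
    Tendsto (fun x : ℕ => (x : ℝ) / Real.log x ^ k) atTop atTop := by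
  have h1 : Tendsto (fun y : ℝ => y / Real.log y ^ k) atTop atTop := by
    have h0 := (Real.isLittleO_pow_log_id_atTop (n := k)).tendsto_div_nhds_zero
    have h2 : Tendsto (fun y : ℝ => Real.log y ^ k / y) atTop (𝓝[>] 0) := by
      rw [tendsto_nhdsWithin_iff]
      refine ⟨by simpa using h0, ?_⟩
      filter_upwards [eventually_gt_atTop 1] with y hy
      have : 0 < Real.log y := Real.log_pos hy
      have hy0 : 0 < y := by linarith
      exact Set.mem_Ioi.mpr (by positivity)
    have h3 := h2.inv_tendsto_nhdsGT_zero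
    refine h3.congr (fun y => ?_)
    simp
  exact h1.comp tendsto_natCast_atTop_atTop

lemma tendsto_cut (k : ℕ) : Tendsto (cut k) atTop atTop :=
  tendsto_nat_floor_atTop.comp (tendsto_div_logpow (k + 1))

lemma cut_bound (k : ℕ) :
    Tendsto (fun x : ℕ => (cut k x : ℝ) * Real.log x ^ k / x) atTop (𝓝 0) := by
  have h1 : Tendsto (fun x : ℕ => (Real.log (x : ℝ))⁻¹) atTop (𝓝 0) :=
    tendsto_inv_atTop_zero.comp tendsto_log_nat
  refine squeeze_zero' ?_ ?_ h1
  · filter_upwards [eventually_ge_atTop 3] with x hx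
    have : 0 ≤ Real.log (x : ℝ) := Real.log_natCast_nonneg _
    positivity
  · filter_upwards [eventually_ge_atTop 3] with x hx
    have hx3 : (3 : ℝ) ≤ x := by exact_mod_cast hx
    have hl : 0 < Real.log (x : ℝ) := Real.log_pos (by linarith)
    have hc : (cut k x : ℝ) ≤ (x : ℝ) / Real.log x ^ (k + 1) := Nat.floor_le (by positivity)
    calc (cut k x : ℝ) * Real.log x ^ k / x
        ≤ ((x : ℝ) / Real.log x ^ (k + 1)) * Real.log x ^ k / x := by
          gcongr
      _ = (Real.log (x : ℝ))⁻¹ := by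
          have : (x : ℝ) ≠ 0 := by linarith
          field_simp
          ring

lemma tendsto_log_cut (k : ℕ) :
    Tendsto (fun x : ℕ => Real.log (x : ℝ) / Real.log (cut k x)) atTop (𝓝 1) := by
  -- log (cut) ≥ log x - (k+1) loglog x - log 2
  have hA : Tendsto (fun x : ℕ => ((k : ℝ) + 1) * (Real.log (Real.log (x : ℝ)) / Real.log x) +
      Real.log 2 / Real.log x) atTop (𝓝 0) := by
    have h1 : Tendsto (fun y : ℝ => Real.log y / y) atTop (𝓝 0) := by
      have := (Real.isLittleO_pow_log_id_atTop (n := 1)).tendsto_div_nhds_zero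
      simpa using this
    have h2 := h1.comp tendsto_log_nat
    have h3 : Tendsto (fun x : ℕ => Real.log 2 / Real.log (x : ℝ)) atTop (𝓝 0) :=
      tendsto_const_nhds.div_atTop tendsto_log_nat
    have := (h2.const_mul ((k : ℝ) + 1)).add h3
    simpa using this
  have hB : Tendsto (fun x : ℕ => Real.log (cut k x : ℝ) / Real.log (x : ℝ)) atTop (𝓝 1) := by
    have hlow : Tendsto (fun x : ℕ => 1 - (((k : ℝ) + 1) *
        (Real.log (Real.log (x : ℝ)) / Real.log x) + Real.log 2 / Real.log x)) atTop (𝓝 1) := by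
      have := (tendsto_const_nhds (x := (1 : ℝ))).sub hA
      simpa using this
    refine tendsto_of_tendsto_of_tendsto_of_le_of_le' hlow tendsto_const_nhds ?_ ?_
    · filter_upwards [eventually_ge_atTop 3, (tendsto_div_logpow (k + 1)).eventually_ge_atTop 2]
        with x hx hx2
      have hx3 : (3 : ℝ) ≤ x := by exact_mod_cast hx
      have hl : 0 < Real.log (x : ℝ) := Real.log_pos (by linarith)
      have hfl : (x : ℝ) / Real.log x ^ (k + 1) / 2 ≤ (cut k x : ℝ) := by
        have := Nat.sub_one_lt_floor ((x : ℝ) / Real.log x ^ (k + 1))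
        unfold cut
        linarith
      have hlog : Real.log ((x : ℝ) / Real.log x ^ (k + 1) / 2) ≤ Real.log (cut k x : ℝ) :=
        Real.log_le_log (by positivity) hfl
      rw [Real.log_div (by positivity) (by norm_num), Real.log_div (by positivity) (by positivity),
        Real.log_pow] at hlog
      rw [le_div_iff₀ hl]
      have e : (1 - (((k : ℝ) + 1) * (Real.log (Real.log (x : ℝ)) / Real.log x) +
          Real.log 2 / Real.log x)) * Real.log x =
          Real.log x - ((k : ℝ) + 1) * Real.log (Real.log x) - Real.log 2 := by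
        field_simp
        ring
      rw [e]
      push_cast at hlog
      exact hlog
    · filter_upwards [eventually_ge_atTop 3, (tendsto_cut k).eventually_ge_atTop 1] with x hx hc
      have hx3 : (3 : ℝ) ≤ x := by exact_mod_cast hx
      have hl : 0 < Real.log (x : ℝ) := Real.log_pos (by linarith)
      rw [div_le_one hl]
      apply Real.log_le_log
      · have : (1 : ℝ) ≤ cut k x := by exact_mod_cast hc
        linarith
      · exact_mod_cast cut_le k x hx
  have := hB.inv₀ one_ne_zero
  rw [inv_one] at this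
  refine this.congr (fun x => ?_)
  rw [inv_div]

lemma tendsto_log_two : Tendsto (fun x : ℕ => Real.log (x : ℝ) / Real.log ((2 * x : ℕ) : ℝ))
    atTop (𝓝 1) := by
  have hB : Tendsto (fun x : ℕ => Real.log ((2 * x : ℕ) : ℝ) / Real.log (x : ℝ)) atTop (𝓝 1) := by
    have h3 : Tendsto (fun x : ℕ => Real.log 2 / Real.log (x : ℝ) + 1) atTop (𝓝 (0 + 1)) :=
      (tendsto_const_nhds.div_atTop tendsto_log_nat).add tendsto_const_nhds
    rw [zero_add] at h3
    refine h3.congr' ?_
    filter_upwards [eventually_ge_atTop 3] with x hx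
    have hx3 : (3 : ℝ) ≤ x := by exact_mod_cast hx
    have hl : 0 < Real.log (x : ℝ) := Real.log_pos (by linarith)
    push_cast
    rw [Real.log_mul (by norm_num) (by positivity)]
    field_simp
  have := hB.inv₀ one_ne_zero
  rw [inv_one] at this
  refine this.congr (fun x => ?_)
  rw [inv_div]

lemma t_bound (T : ℕ → ℕ) (hT : Slow T) (x : ℕ) (hx : 3 ≤ x) (r : ℕ) :
    (2 : ℝ) ^ (r * T (2 * x)) ≤ Real.log ((2 * x : ℕ) : ℝ) ^ r := by
  have hL : (1 : ℝ) ≤ Real.log ((2 * x : ℕ) : ℝ) := by
    rw [Real.le_log_iff_exp_le (by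
      have : 0 < 2 * x := by omega
      exact_mod_cast this)]
    have h3 : (3 : ℝ) ≤ ((2 * x : ℕ) : ℝ) := by exact_mod_cast (by omega : 3 ≤ 2 * x)
    have := Real.exp_one_lt_d9
    linarith
  rcases hT.le (2 * x) (by omega) with h | h
  · rw [mul_comm, pow_mul]
    apply pow_le_pow_left₀ (by positivity)
    have h2 : (2 : ℝ) ≤ Real.exp 1 := by
      have := Real.exp_one_gt_d9
      linarith
    calc (2 : ℝ) ^ T (2 * x) ≤ Real.exp 1 ^ T (2 * x) := pow_le_pow_left₀ (by norm_num) h2 _
      _ = Real.exp (T (2 * x)) := by rw [← Real.exp_nat_mul, mul_one]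
      _ ≤ Real.exp (Real.log (Real.log ((2 * x : ℕ) : ℝ))) := Real.exp_le_exp.mpr h
      _ = Real.log ((2 * x : ℕ) : ℝ) := Real.exp_log (by linarith)
  · rw [h]
    simp only [mul_zero, pow_zero]
    exact one_le_pow₀ hL

/-- the main asymptotics -/
theorem mainTerm_asymp (T : ℕ → ℕ) (hT : Slow T) (hT2 : Tendsto T atTop atTop) (q a : ℕ)
    (hq : 0 < q) (H : Finset ℕ) :
    Tendsto (fun x : ℕ => mainTerm T H q a x * Real.log x ^ H.card / x) atTop
      (𝓝 (hlConst q a H)) := by
  classical
  set k := H.card with hk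
  set c := hlConst q a H with hc
  obtain ⟨C, hC⟩ := exists_prod_dens_le T hT H
  obtain ⟨m, hm⟩ : ∃ m : ℕ, ∀ h ∈ H, h ≤ m := ⟨H.sup id, fun h hh => Finset.le_sup (f := id) hh⟩
  have hcnn : 0 ≤ c := by
    refine ge_of_tendsto' (tendsto_dlt q a hq H) (fun t => ?_)
    have := vee_pos t
    have := dlt_nonneg q a H t
    positivity
  set Q : ℕ → ℕ := fun x => q * prim (T (2 * x)) * (m + 1) with hQdef
  -- size of Q and t1
  have hE : ∀ r : ℕ, Tendsto (fun x : ℕ => ((T (2 * x) : ℝ) + 1) ^ r * (Q x : ℝ) / x) atTop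
      (𝓝 0) := by
    intro r
    have h1 := (tendsto_loglog_div (r + 2)).const_mul ((q : ℝ) * (m + 1))
    rw [mul_zero] at h1
    refine squeeze_zero' ?_ ?_ h1
    · filter_upwards with x
      positivity
    · filter_upwards [eventually_ge_atTop 3] with x hx
      have hx3 : (3 : ℝ) ≤ x := by exact_mod_cast hx
      have h2 : ((T (2 * x) : ℝ) + 1) ≤ 2 ^ T (2 * x) := by
        exact_mod_cast Nat.lt_two_pow_self
      have h3 : (Q x : ℝ) ≤ (q : ℝ) * (m + 1) * 2 ^ (2 * T (2 * x)) := by
        have : prim (T (2 * x)) ≤ 2 ^ (2 * T (2 * x)) := by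
          rw [pow_mul]
          exact prim_le _
        have h4 : (prim (T (2 * x)) : ℝ) ≤ 2 ^ (2 * T (2 * x)) := by exact_mod_cast this
        simp only [hQdef]
        push_cast
        have hqq : (0 : ℝ) ≤ (q : ℝ) * (m + 1) := by positivity
        nlinarith
      calc ((T (2 * x) : ℝ) + 1) ^ r * (Q x : ℝ) / x
          ≤ (2 ^ T (2 * x)) ^ r * ((q : ℝ) * (m + 1) * 2 ^ (2 * T (2 * x))) / x := by
            gcongr
        _ = (q : ℝ) * (m + 1) * (2 ^ ((r + 2) * T (2 * x)) / x) := by
            rw [← pow_mul]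
            ring
        _ ≤ (q : ℝ) * (m + 1) * (Real.log ((2 * x : ℕ) : ℝ) ^ (r + 2) / x) := by
            gcongr
            exact t_bound T hT x hx (r + 2)
  have hlogc := tendsto_log_cut k
  have hU : ∀ hi : ℝ, Tendsto (fun x : ℕ => C * ((cut k x : ℝ) * Real.log x ^ k / x) +
      hi * (Real.log (x : ℝ) / Real.log (cut k x)) ^ k +
      5 * (((T (2 * x) : ℝ) + 1) ^ (k + 1) * (Q x : ℝ) / x) *
        (Real.log (x : ℝ) / Real.log (cut k x)) ^ k) atTop (𝓝 hi) := by
    intro hi
    have h1 := (cut_bound k).const_mul C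
    have h2 := (hlogc.pow k).const_mul hi
    have h3 := ((hE (k + 1)).const_mul 5).mul (hlogc.pow k)
    have := (h1.add h2).add h3
    simpa using this
  have hLow : ∀ lo : ℝ, Tendsto (fun x : ℕ => (1 - (cut k x : ℝ) / x - (Q x : ℝ) / x -
      4 * (((T (2 * x) : ℝ) + 1) ^ 1 * (Q x : ℝ) / x)) * lo *
      (Real.log (x : ℝ) / Real.log ((2 * x : ℕ) : ℝ)) ^ k) atTop (𝓝 lo) := by
    intro lo
    have h0 : Tendsto (fun x : ℕ => (cut k x : ℝ) / x) atTop (𝓝 0) := by
      refine squeeze_zero' ?_ ?_ (cut_bound k)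
      · filter_upwards with x
        positivity
      · filter_upwards [eventually_ge_atTop 3] with x hx
        have hx3 : (3 : ℝ) ≤ x := by exact_mod_cast hx
        have hl : (1 : ℝ) ≤ Real.log (x : ℝ) := by
          rw [Real.le_log_iff_exp_le (by positivity)]
          have := Real.exp_one_lt_d9
          linarith
        have : (1 : ℝ) ≤ Real.log (x : ℝ) ^ k := one_le_pow₀ hl
        apply div_le_div_of_nonneg_right _ (by positivity)
        nlinarith [(Nat.cast_nonneg (cut k x) : (0 : ℝ) ≤ cut k x)]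
    have h1 : Tendsto (fun x : ℕ => (Q x : ℝ) / x) atTop (𝓝 0) := by
      have := hE 0
      simpa using this
    have h2 := (hE 1).const_mul 4
    have h3 := (((tendsto_const_nhds (x := (1 : ℝ))).sub h0).sub h1).sub h2
    have h4 := (h3.mul_const lo).mul (tendsto_log_two.pow k)
    simpa using h4
  rw [Metric.tendsto_atTop']
  rw [← Metric.tendsto_atTop']
  rw [tendsto_order]
  have hev : ∀ δ : ℝ, 0 < δ → ∀ᶠ x : ℕ in atTop, ∀ t, T (cut k x) ≤ t →
      max (c - δ) 0 ≤ dlt q a H t / vee t ^ H.card ∧ dlt q a H t / vee t ^ H.card ≤ c + δ := by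
    intro δ hδ
    have h1 : ∀ᶠ t : ℕ in atTop, max (c - δ) 0 ≤ dlt q a H t / vee t ^ H.card ∧
        dlt q a H t / vee t ^ H.card ≤ c + δ := by
      have h2 := (tendsto_dlt q a hq H).eventually (Icc_mem_nhds (show c - δ < hlConst q a H by
        rw [← hc]; linarith) (show hlConst q a H < c + δ by rw [← hc]; linarith))
      filter_upwards [h2] with t ht
      refine ⟨max_le ht.1 ?_, ht.2⟩
      have := vee_pos t
      have := dlt_nonneg q a H t
      positivity
    obtain ⟨t0, ht0⟩ := eventually_atTop.mp h1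
    have h3 : ∀ᶠ x : ℕ in atTop, t0 ≤ T (cut k x) :=
      (hT2.comp (tendsto_cut k)).eventually_ge_atTop t0
    filter_upwards [h3] with x hx t ht
    exact ht0 t (by omega)
  have hcommon : ∀ δ : ℝ, 0 < δ → ∀ᶠ x : ℕ in atTop,
      mainTerm T H q a x * Real.log x ^ k / x ≤ C * ((cut k x : ℝ) * Real.log x ^ k / x) +
      (c + δ) * (Real.log (x : ℝ) / Real.log (cut k x)) ^ k +
      5 * (((T (2 * x) : ℝ) + 1) ^ (k + 1) * (Q x : ℝ) / x) *
        (Real.log (x : ℝ) / Real.log (cut k x)) ^ k ∧
      (1 - (cut k x : ℝ) / x - (Q x : ℝ) / x -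
      4 * (((T (2 * x) : ℝ) + 1) ^ 1 * (Q x : ℝ) / x)) * max (c - δ) 0 *
      (Real.log (x : ℝ) / Real.log ((2 * x : ℕ) : ℝ)) ^ k ≤
        mainTerm T H q a x * Real.log x ^ k / x := by
    intro δ hδ
    have hQx : ∀ᶠ x : ℕ in atTop, Q x ≤ x := by
      have h1 : Tendsto (fun x : ℕ => (Q x : ℝ) / x) atTop (𝓝 0) := by
        have := hE 0
        simpa using this
      filter_upwards [h1.eventually (gt_mem_nhds (show (0 : ℝ) < 1 by norm_num)),
        eventually_gt_atTop 0] with x hx hx0
      have hx0' : (0 : ℝ) < x := by exact_mod_cast hx0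
      rw [div_lt_one hx0'] at hx
      exact_mod_cast hx.le
    filter_upwards [hev δ hδ, eventually_ge_atTop 3, (tendsto_cut k).eventually_ge_atTop 3, hQx]
      with x hr hx hy hQx
    have hx3 : (3 : ℝ) ≤ x := by exact_mod_cast hx
    have hx0 : (0 : ℝ) < x := by linarith
    have hl : 0 < Real.log (x : ℝ) := Real.log_pos (by linarith)
    have hly : 0 < Real.log (cut k x : ℝ) := Real.log_pos (by
      have : (3 : ℝ) ≤ cut k x := by exact_mod_cast hy
      linarith)
    have hl2 : 0 < Real.log ((2 * x : ℕ) : ℝ) := Real.log_pos (by push_cast; linarith)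
    have hb := mainTerm_bounds T hT.mono q a hq H m hm C hC (max (c - δ) 0) (c + δ)
      (le_max_right _ _) (cut k x) x (Q x) hy (cut_le k x hx)
      (Dvd.intro _ rfl) (by
        simp only [hQdef]
        exact Nat.mul_pos (Nat.mul_pos hq (prim_pos _)) (Nat.succ_pos _)) (by
        simp only [hQdef]
        have h1 : 1 ≤ q * prim (T (2 * x)) := Nat.mul_pos hq (prim_pos _)
        nlinarith) hQx hr
    rw [← hk] at hb
    set t1 : ℝ := (T (2 * x) : ℝ) with ht1
    have ht1nn : 0 ≤ t1 := Nat.cast_nonneg _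
    have hQnn : (0 : ℝ) ≤ Q x := Nat.cast_nonneg _
    have hLk : 0 ≤ Real.log (x : ℝ) ^ k / x := by positivity
    constructor
    · have h1 := mul_le_mul_of_nonneg_right hb.1 hLk
      have e0 : mainTerm T H q a x * Real.log x ^ k / x =
          mainTerm T H q a x * (Real.log (x : ℝ) ^ k / x) := by ring
      rw [e0]
      refine h1.trans ?_
      have e1 : (C * (cut k x : ℝ) + x * (c + δ) / Real.log (cut k x) ^ k +
          (4 * t1 + 1) * (Q x : ℝ) * ((t1 + 1) / Real.log (cut k x)) ^ k) *
          (Real.log (x : ℝ) ^ k / x) =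
          C * ((cut k x : ℝ) * Real.log x ^ k / x) +
          (c + δ) * (Real.log (x : ℝ) / Real.log (cut k x)) ^ k +
          (4 * t1 + 1) * ((t1 + 1) ^ k * (Q x : ℝ) / x) *
            (Real.log (x : ℝ) / Real.log (cut k x)) ^ k := by
        rw [div_pow, div_pow]
        field_simp
      rw [e1]
      have h2 : (4 * t1 + 1) * ((t1 + 1) ^ k * (Q x : ℝ) / x) ≤
          5 * ((t1 + 1) ^ (k + 1) * (Q x : ℝ) / x) := by
        have h3 : 0 ≤ (t1 + 1) ^ k * (Q x : ℝ) / x := by positivity
        calc (4 * t1 + 1) * ((t1 + 1) ^ k * (Q x : ℝ) / x)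
            ≤ (5 * (t1 + 1)) * ((t1 + 1) ^ k * (Q x : ℝ) / x) := by
              apply mul_le_mul_of_nonneg_right _ h3
              linarith
          _ = 5 * ((t1 + 1) ^ (k + 1) * (Q x : ℝ) / x) := by ring
      have h4 : 0 ≤ (Real.log (x : ℝ) / Real.log (cut k x)) ^ k := by positivity
      have := mul_le_mul_of_nonneg_right h2 h4
      linarith
    · have h1 := mul_le_mul_of_nonneg_right hb.2 hLk
      have e0 : mainTerm T H q a x * Real.log x ^ k / x =
          mainTerm T H q a x * (Real.log (x : ℝ) ^ k / x) := by ring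
      rw [e0]
      refine le_trans ?_ h1
      have e1 : ((x : ℝ) - cut k x - Q x - 4 * t1 * Q x) * max (c - δ) 0 /
          Real.log ((2 * x : ℕ) : ℝ) ^ k * (Real.log (x : ℝ) ^ k / x) =
          (1 - (cut k x : ℝ) / x - (Q x : ℝ) / x - 4 * (t1 * (Q x : ℝ) / x)) *
          max (c - δ) 0 * (Real.log (x : ℝ) / Real.log ((2 * x : ℕ) : ℝ)) ^ k := by
        rw [div_pow]
        field_simp
      rw [e1]
      apply mul_le_mul_of_nonneg_right _ (by positivity)
      apply mul_le_mul_of_nonneg_right _ (le_max_right _ _)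
      have h3 : t1 * (Q x : ℝ) / x ≤ (t1 + 1) ^ 1 * (Q x : ℝ) / x := by
        rw [pow_one]
        gcongr
        linarith
      linarith
  constructor
  · intro b hb
    set δ := (c - b) / 2 with hδ
    have hδp : 0 < δ := by rw [hδ]; linarith
    have hlt : b < max (c - δ) 0 := lt_max_of_lt_left (by rw [hδ]; linarith)
    filter_upwards [hcommon δ hδp, (hLow (max (c - δ) 0)).eventually (lt_mem_nhds hlt)]
      with x h1 h2
    exact lt_of_lt_of_le h2 h1.2
  · intro b hb
    set δ := (b - c) / 2 with hδ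
    have hδp : 0 < δ := by rw [hδ]; linarith
    have hlt : c + δ < b := by rw [hδ]; linarith
    filter_upwards [hcommon δ hδp, (hU (c + δ)).eventually (gt_mem_nhds hlt)]
      with x h1 h2
    exact lt_of_le_of_lt h1.1 h2

end Pool.Agent.LibCI99
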