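import Pool.Agent.LibCI99.Defs

namespace Pool.Agent.LibCI99

open Filter Topology

/-- local Hardy-Littlewood factor at `p` for the tuple `H` in the class `a mod q`. -/
noncomputable def loc (q a : ℕ) (H : Finset ℕ) (p : ℕ) : ℝ :=
  (if p ∣ q then (if ∀ h ∈ H, ¬ p ∣ a + h then (1 : ℝ) else 0) else 1 - (occ H p : ℝ) / p) /
    (1 - 1 / (p : ℝ)) ^ H.card

/-- Hardy-Littlewood constant for the tuple `H` in the class `a mod q`. -/
noncomputable def hlConst (q a : ℕ) (H : Finset ℕ) : ℝ :=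
  (1 / (q : ℝ)) * ∏' p : Nat.Primes, loc q a H p

noncomputable def dlt (q a : ℕ) (H : Finset ℕ) (t : ℕ) : ℝ :=
  (1 / (q : ℝ)) * ∏ p ∈ (Finset.range (t + 1)).filter Nat.Prime,
    (if p ∣ q then (if ∀ h ∈ H, ¬ p ∣ a + h then (1 : ℝ) else 0) else 1 - (occ H p : ℝ) / p)

def goodT (q a : ℕ) (H : Finset ℕ) (t n : ℕ) : Prop :=
  n ≡ a [MOD q] ∧ ∀ h ∈ H, Nat.Coprime (n + h) (prim t)

end Pool.Agent.LibCI99
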